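import Pool.Agent.J6H57.MinRamsey.Coloring

/-!
# The lower bound `f(n) ≥ n + (1 - ε) log₂ n`
-/

set_option linter.unusedSectionVars false

namespace Pool.Agent.J6H57.MinRamsey

open Finset Filter

/-- `D` is a dominating set of `G`. -/
def Dominates {V : Type*} (G : SimpleGraph V) (D : Finset V) : Prop :=
  ∀ v, v ∉ D → ∃ d ∈ D, G.Adj d v

/-- In a graph without isolated vertices a minimum dominating set can be matched into its
complement. -/
lemma exists_dominating_matching {V : Type*} [Fintype V] [DecidableEq V] (G : SimpleGraph V)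
    (hG : ∀ v, ∃ w, G.Adj v w) :
    ∃ D : Finset V, Dominates G D ∧ ∃ p : D → V, Function.Injective p ∧
      ∀ d : D, G.Adj d (p d) ∧ p d ∉ D := by
  classical
  have hex : ∃ k, ∃ D : Finset V, Dominates G D ∧ D.card = k :=
    ⟨_, univ, fun v hv => absurd (mem_univ v) hv, rfl⟩
  obtain ⟨D, hD, hDk⟩ := Nat.find_spec hex
  have hmin : ∀ D' : Finset V, Dominates G D' → D.card ≤ D'.card := by
    intro D' hD'
    rw [hDk]
    exact Nat.find_min' hex ⟨D', hD', rfl⟩
  -- every element of `D` has a neighbour outside `D`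
  have hout : ∀ d ∈ D, ∃ w, w ∉ D ∧ G.Adj d w := by
    intro d hd
    by_contra hcon
    push Not at hcon
    have h1 : Dominates G (D.erase d) := by
      intro v hv
      by_cases hvD : v ∈ D
      · have hvd : v = d := by
          by_contra hne
          exact hv (Finset.mem_erase.2 ⟨hne, hvD⟩)
        subst hvd
        obtain ⟨w, hw⟩ := hG v
        have hwD : w ∈ D := by
          by_contra hwD
          exact hcon w hwD hw
        exact ⟨w, Finset.mem_erase.2 ⟨hw.ne', hwD⟩, hw.symm⟩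
      · obtain ⟨d', hd', hadj⟩ := hD v hvD
        refine ⟨d', Finset.mem_erase.2 ⟨?_, hd'⟩, hadj⟩
        rintro rfl
        exact hcon v hvD hadj
    have h2 := hmin _ h1
    have h3 := Finset.card_erase_lt_of_mem hd
    omega
  refine ⟨D, hD, ?_⟩
  let t : D → Finset V := fun d => univ.filter (fun w => w ∉ D ∧ G.Adj d w)
  have hHall : ∀ s : Finset D, s.card ≤ (s.biUnion t).card := by
    intro s
    by_contra hcon
    push Not at hcon
    let A : Finset V := s.image Subtype.val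
    have hAc : A.card = s.card := Finset.card_image_of_injective _ Subtype.val_injective
    have hAD : A ⊆ D := by
      intro v hv
      obtain ⟨d, _, rfl⟩ := Finset.mem_image.1 hv
      exact d.2
    have h1 : Dominates G ((D \ A) ∪ s.biUnion t) := by
      intro v hv
      rw [Finset.mem_union, not_or, Finset.mem_sdiff, Finset.mem_biUnion] at hv
      obtain ⟨hv1, hv2⟩ := hv
      by_cases hvD : v ∈ D
      · have hvA : v ∈ A := by
          by_contra h
          exact hv1 ⟨hvD, h⟩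
        obtain ⟨d, hd, rfl⟩ := Finset.mem_image.1 hvA
        obtain ⟨w, hwD, hw⟩ := hout d d.2
        refine ⟨w, Finset.mem_union_right _ (Finset.mem_biUnion.2 ⟨d, hd, ?_⟩), hw.symm⟩
        exact Finset.mem_filter.2 ⟨Finset.mem_univ _, hwD, hw⟩
      · obtain ⟨d, hd, hadj⟩ := hD v hvD
        refine ⟨d, Finset.mem_union_left _ (Finset.mem_sdiff.2 ⟨hd, ?_⟩), hadj⟩
        intro hdA
        obtain ⟨d', hd', rfl⟩ := Finset.mem_image.1 hdA
        exact hv2 ⟨d', hd', Finset.mem_filter.2 ⟨Finset.mem_univ _, hvD, hadj⟩⟩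
    have h2 := hmin _ h1
    have h3 := Finset.card_union_le (D \ A) (s.biUnion t)
    have h4 : (D \ A).card + A.card = D.card := Finset.card_sdiff_add_card_eq_card hAD
    omega
  obtain ⟨p, hp, hpt⟩ := (Finset.all_card_le_biUnion_card_iff_exists_injective t).1 hHall
  refine ⟨p, hp, fun d => ?_⟩
  have := (Finset.mem_filter.1 (hpt d)).2
  exact ⟨this.2, this.1⟩

/-- The colouring with a red clique on all but `ρ + 1` vertices. -/
lemma not_arrows_of_matching {n ρ : ℕ} (hn : 1 ≤ n) {G : SimpleGraph (Fin n)}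
    (hG : ∀ v, ∃ w, G.Adj v w) {D : Finset (Fin n)} (hcard : ρ + 2 ≤ D.card) (p : D → Fin n)
    (hp : Function.Injective p) (hpD : ∀ d : D, G.Adj d (p d) ∧ p d ∉ D) :
    ¬ Arrows (n + ρ) G := by
  classical
  intro h
  let R : SimpleGraph (Fin (n + ρ)) :=
    { Adj := fun u v => u ≠ v ∧ u.val < n - 1 ∧ v.val < n - 1
      symm := ⟨fun u v h => ⟨h.1.symm, h.2.2, h.2.1⟩⟩
      loopless := ⟨fun _ h => h.1 rfl⟩ }
  rcases h R with ⟨⟨φ⟩⟩ | ⟨⟨φ⟩⟩
  · have h1 : ∀ v, (φ v).val < n - 1 := by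
      intro v
      obtain ⟨w, hw⟩ := hG v
      exact (φ.toHom.map_adj hw).2.1
    let ψ : Fin n → Fin (n - 1) := fun v => ⟨(φ v).val, h1 v⟩
    have hψ : Function.Injective ψ := by
      intro a b hab
      apply φ.injective
      exact Fin.ext (Fin.mk.inj_iff.1 hab)
    have := Fintype.card_le_of_injective ψ hψ
    rw [Fintype.card_fin, Fintype.card_fin] at this
    omega
  · have h1 : ∀ d : D, ¬ ((φ d.val).val < n - 1 ∧ (φ (p d)).val < n - 1) := by
      intro d hlt
      have h2 : Rᶜ.Adj (φ d.val) (φ (p d)) := φ.toHom.map_adj (hpD d).1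
      rw [SimpleGraph.compl_adj] at h2
      exact h2.2 ⟨h2.1, hlt⟩
    let q : D → Fin (n + ρ) := fun d => if (φ d.val).val < n - 1 then φ (p d) else φ d.val
    have hq : ∀ d, n - 1 ≤ (q d).val := by
      intro d
      simp only [q]
      split_ifs with h2
      · by_contra h3
        exact h1 d ⟨h2, by omega⟩
      · omega
    have hqi : Function.Injective q := by
      intro a b hab
      simp only [q] at hab
      split_ifs at hab with h2 h3 h3
      · exact hp (φ.injective hab)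
      · have := φ.injective hab
        exact absurd (this ▸ b.2) (hpD a).2
      · have := φ.injective hab
        exact absurd (this ▸ a.2) (hpD b).2
      · exact Subtype.ext (φ.injective hab)
    let q' : D → Fin (ρ + 1) := fun d => ⟨(q d).val - (n - 1), by
      have := (q d).2
      have := hq d
      omega⟩
    have hq' : Function.Injective q' := by
      intro a b hab
      apply hqi
      have h2 := Fin.mk.inj_iff.1 hab
      have h3 := hq a
      have h4 := hq b
      exact Fin.ext (by omega)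
    have := Fintype.card_le_of_injective q' hq'
    rw [Fintype.card_coe, Fintype.card_fin] at this
    omega

/-- A random colouring has no copy of a graph with a small dominating set. -/
lemma not_arrows_of_dominates {n ρ : ℕ} (hn : ρ + 1 ≤ n + ρ) {G : SimpleGraph (Fin n)}
    {D : Finset (Fin n)} (hD : Dominates G D) (hcard : D.card ≤ ρ + 1)
    {R : SimpleGraph (Fin (n + ρ))}
    (hR : ∀ X : Finset (Fin (n + ρ)), X.card = ρ + 1 → ∀ Y : Finset (Fin (n + ρ)),
      Y.card ≤ ρ → (∃ v, v ∉ X ∧ v ∉ Y ∧ ∀ x ∈ X, ¬ R.Adj x v) ∧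
        (∃ v, v ∉ X ∧ v ∉ Y ∧ ∀ x ∈ X, ¬ Rᶜ.Adj x v)) :
    ¬ Arrows (n + ρ) G := by
  classical
  -- the general argument
  have key : ∀ (S : SimpleGraph (Fin (n + ρ))), (∀ X : Finset (Fin (n + ρ)), X.card = ρ + 1 →
      ∀ Y : Finset (Fin (n + ρ)), Y.card ≤ ρ → ∃ v, v ∉ X ∧ v ∉ Y ∧ ∀ x ∈ X, ¬ S.Adj x v) →
      ¬ G.IsContained S := by
    rintro S hS ⟨φ⟩
    have h1 : (D.image φ).card ≤ ρ + 1 := Finset.card_image_le.trans hcard
    obtain ⟨X, hX, hXc⟩ := Finset.exists_superset_card_eq h1 (by simpa using hn)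
    have hinj : Function.Injective (fun v => φ v) := φ.injective
    have h2 : (univ \ univ.image φ).card ≤ ρ := by
      have h3 : (univ.image (fun v => φ v)).card = n := by
        rw [Finset.card_image_of_injective _ hinj, Finset.card_univ, Fintype.card_fin]
      rw [Finset.card_sdiff_of_subset (Finset.subset_univ _), Finset.card_univ, Fintype.card_fin,
        h3]
      omega
    obtain ⟨v, hvX, hvY, hv⟩ := hS X hXc _ h2
    rw [Finset.mem_sdiff, not_and, not_not] at hvY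
    obtain ⟨u, _, rfl⟩ := Finset.mem_image.1 (hvY (Finset.mem_univ _))
    have huD : u ∉ D := fun h => hvX (hX (Finset.mem_image_of_mem _ h))
    obtain ⟨d, hd, hadj⟩ := hD u huD
    exact hv (φ d) (hX (Finset.mem_image_of_mem _ hd)) (φ.toHom.map_adj hadj)
  intro h
  rcases h R with h | h
  · exact key R (fun X hX Y hY => (hR X hX Y hY).1) h
  · exact key Rᶜ (fun X hX Y hY => (hR X hX Y hY).2) h

/-- Monotonicity of the arrow relation. -/
lemma Arrows.mono {V : Type*} {G : SimpleGraph V} {N N' : ℕ} (h : Arrows N' G) (hN : N' ≤ N) :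
    Arrows N G := by
  intro R
  let f : Fin N' ↪ Fin N := Fin.castLEEmb hN
  rcases h (R.comap f) with h | h
  · exact Or.inl (h.trans (SimpleGraph.Embedding.comap f R).isContained)
  · right
    have h1 : (R.comap f)ᶜ ≤ Rᶜ.comap f := by
      intro a b hab
      rw [SimpleGraph.compl_adj] at hab
      rw [SimpleGraph.comap_adj, SimpleGraph.compl_adj]
      exact ⟨fun h => hab.1 (f.injective h), fun h => hab.2 h⟩
    exact (h.mono_right h1).trans (SimpleGraph.Embedding.comap f Rᶜ).isContained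

/-- A finite form of Ramsey's theorem. -/
lemma ramsey_aux (k : ℕ) : ∀ s t : ℕ, s + t = k → ∃ N : ℕ, ∀ (M : ℕ) (R : SimpleGraph (Fin M))
    (A : Finset (Fin M)), N ≤ A.card →
      (∃ S ⊆ A, S.card = s ∧ ∀ a ∈ S, ∀ b ∈ S, a ≠ b → R.Adj a b) ∨
      (∃ S ⊆ A, S.card = t ∧ ∀ a ∈ S, ∀ b ∈ S, a ≠ b → ¬ R.Adj a b) := by
  classical
  induction k with
  | zero =>
    intro s t hst
    refine ⟨0, fun M R A _ => Or.inl ⟨∅, Finset.empty_subset _, ?_, ?_⟩⟩
    · simp; omega
    · simp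
  | succ k ih =>
    intro s t hst
    rcases Nat.eq_zero_or_pos s with rfl | hs
    · exact ⟨0, fun M R A _ => Or.inl ⟨∅, Finset.empty_subset _, by simp, by simp⟩⟩
    rcases Nat.eq_zero_or_pos t with rfl | ht
    · exact ⟨0, fun M R A _ => Or.inr ⟨∅, Finset.empty_subset _, by simp, by simp⟩⟩
    obtain ⟨N₁, h₁⟩ := ih (s - 1) t (by omega)
    obtain ⟨N₂, h₂⟩ := ih s (t - 1) (by omega)
    refine ⟨N₁ + N₂ + 1, fun M R A hA => ?_⟩
    obtain ⟨v, hv⟩ : A.Nonempty := Finset.card_pos.1 (by omega)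
    have h3 : (A.erase v).card = A.card - 1 := Finset.card_erase_of_mem hv
    have h4 := Finset.card_filter_add_card_filter_not (s := A.erase v) (fun w => R.Adj v w)
    rcases le_or_gt N₁ ((A.erase v).filter (fun w => R.Adj v w)).card with h5 | h5
    · rcases h₁ M R _ h5 with ⟨S, hS, hSc, hSa⟩ | ⟨S, hS, hSc, hSa⟩
      · left
        have hvS : v ∉ S := fun h => by
          have := (Finset.mem_filter.1 (hS h)).1
          exact Finset.notMem_erase v A this
        refine ⟨insert v S, ?_, ?_, ?_⟩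
        · intro a ha
          rcases Finset.mem_insert.1 ha with rfl | ha
          · exact hv
          · exact Finset.mem_of_mem_erase (Finset.mem_filter.1 (hS ha)).1
        · rw [Finset.card_insert_of_notMem hvS]; omega
        · intro a ha b hb hab
          rcases Finset.mem_insert.1 ha with ha' | ha'
          · rcases Finset.mem_insert.1 hb with hb' | hb'
            · exact absurd (ha'.trans hb'.symm) hab
            · rw [ha']
              exact (Finset.mem_filter.1 (hS hb')).2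
          · rcases Finset.mem_insert.1 hb with hb' | hb'
            · rw [hb']
              exact (Finset.mem_filter.1 (hS ha')).2.symm
            · exact hSa a ha' b hb' hab
      · right
        exact ⟨S, fun a ha => Finset.mem_of_mem_erase (Finset.mem_filter.1 (hS ha)).1, hSc, hSa⟩
    · have h6 : N₂ ≤ ((A.erase v).filter (fun w => ¬ R.Adj v w)).card := by omega
      rcases h₂ M R _ h6 with ⟨S, hS, hSc, hSa⟩ | ⟨S, hS, hSc, hSa⟩
      · left
        exact ⟨S, fun a ha => Finset.mem_of_mem_erase (Finset.mem_filter.1 (hS ha)).1, hSc, hSa⟩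
      · right
        have hvS : v ∉ S := fun h => by
          have := (Finset.mem_filter.1 (hS h)).1
          exact Finset.notMem_erase v A this
        refine ⟨insert v S, ?_, ?_, ?_⟩
        · intro a ha
          rcases Finset.mem_insert.1 ha with rfl | ha
          · exact hv
          · exact Finset.mem_of_mem_erase (Finset.mem_filter.1 (hS ha)).1
        · rw [Finset.card_insert_of_notMem hvS]; omega
        · intro a ha b hb hab
          rcases Finset.mem_insert.1 ha with ha' | ha'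
          · rcases Finset.mem_insert.1 hb with hb' | hb'
            · exact absurd (ha'.trans hb'.symm) hab
            · rw [ha']
              exact (Finset.mem_filter.1 (hS hb')).2
          · rcases Finset.mem_insert.1 hb with hb' | hb'
            · rw [hb']
              exact fun h => (Finset.mem_filter.1 (hS ha')).2 h.symm
            · exact hSa a ha' b hb' hab

lemma exists_arrows {n : ℕ} (G : SimpleGraph (Fin n)) : ∃ N, Arrows N G := by
  classical
  obtain ⟨N, hN⟩ := ramsey_aux (n + n) n n rfl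
  refine ⟨N, fun R => ?_⟩
  have key : ∀ (H : SimpleGraph (Fin N)) (S : Finset (Fin N)), S.card = n →
      (∀ a ∈ S, ∀ b ∈ S, a ≠ b → H.Adj a b) → G.IsContained H := by
    intro H S hS hadj
    let e : Fin n ≃ S := (S.equivFinOfCardEq hS).symm
    refine ⟨⟨⟨fun v => (e v).val, fun {a b} hab => ?_⟩, ?_⟩⟩
    · apply hadj _ (e a).2 _ (e b).2
      intro h
      exact hab.ne (e.injective (Subtype.ext h))
    · intro a b hab
      exact e.injective (Subtype.ext hab)
  rcases hN N R univ (by simp) with ⟨S, _, hSc, hSa⟩ | ⟨S, _, hSc, hSa⟩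
  · exact Or.inl (key R S hSc hSa)
  · refine Or.inr (key Rᶜ S hSc (fun a ha b hb hab => ?_))
    rw [SimpleGraph.compl_adj]
    exact ⟨hab, hSa a ha b hb hab⟩

lemma lt_ramseyNumber {n N : ℕ} {G : SimpleGraph (Fin n)} (h : ¬ Arrows N G) :
    N < ramseyNumber G := by
  have h1 : ramseyNumber G ∈ {N : ℕ | Arrows N G} := Nat.sInf_mem (exists_arrows G)
  by_contra hcon
  exact h (Arrows.mono h1 (by omega))

lemma exists_noIsolated {n : ℕ} (hn : 2 ≤ n) :
    ∃ G : SimpleGraph (Fin n), ∀ v, ∃ w, G.Adj v w := by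
  refine ⟨⊤, fun v => ?_⟩
  by_cases hv : v = ⟨0, by omega⟩
  · refine ⟨⟨1, by omega⟩, ?_⟩
    rw [SimpleGraph.top_adj, hv]
    intro h
    have := Fin.mk.inj_iff.1 h
    omega
  · exact ⟨⟨0, by omega⟩, by rw [SimpleGraph.top_adj]; exact hv⟩

/-- The lower bound, given the numerical condition. -/
lemma lt_minRamsey {n ρ : ℕ} (hn : 2 ≤ n)
    (h : 2 * ((n + ρ) ^ (ρ + 1) * (n + ρ) ^ ρ) * (2 ^ (ρ + 1) - 1) ^ ((n + ρ) - (ρ + 1) - ρ) <
      (2 ^ (ρ + 1)) ^ ((n + ρ) - (ρ + 1) - ρ)) :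
    n + ρ < minRamsey n := by
  obtain ⟨R, hR⟩ := exists_coloring (N := n + ρ) (g := ρ + 1) (ρ := ρ) (by omega) h
  have hne : {m : ℕ | ∃ G : SimpleGraph (Fin n), (∀ v, ∃ w, G.Adj v w) ∧
      ramseyNumber G = m}.Nonempty := by
    obtain ⟨G, hG⟩ := exists_noIsolated hn
    exact ⟨_, G, hG, rfl⟩
  obtain ⟨G, hG, hGm⟩ := Nat.sInf_mem hne
  have h1 : minRamsey n = ramseyNumber G := hGm.symm
  rw [h1]
  apply lt_ramseyNumber
  obtain ⟨D, hD, p, hp, hpD⟩ := exists_dominating_matching G hG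
  rcases le_or_gt D.card (ρ + 1) with h2 | h2
  · exact not_arrows_of_dominates (by omega) hD h2 hR
  · exact not_arrows_of_matching (by omega) hG (by omega) p hp hpD

/-- The numerical condition holds for `ρ = ⌊(1 - ε) log₂ n⌋`. -/
lemma eventually_numeric {ε : ℝ} (hε : 0 < ε) (hε1 : ε < 1) : ∀ᶠ n : ℕ in atTop,
    2 * ((n + ⌊(1 - ε) * Real.logb 2 n⌋₊) ^ (⌊(1 - ε) * Real.logb 2 n⌋₊ + 1) *
      (n + ⌊(1 - ε) * Real.logb 2 n⌋₊) ^ ⌊(1 - ε) * Real.logb 2 n⌋₊) *
      (2 ^ (⌊(1 - ε) * Real.logb 2 n⌋₊ + 1) - 1) ^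
        ((n + ⌊(1 - ε) * Real.logb 2 n⌋₊) - (⌊(1 - ε) * Real.logb 2 n⌋₊ + 1) -
          ⌊(1 - ε) * Real.logb 2 n⌋₊) <
      (2 ^ (⌊(1 - ε) * Real.logb 2 n⌋₊ + 1)) ^
        ((n + ⌊(1 - ε) * Real.logb 2 n⌋₊) - (⌊(1 - ε) * Real.logb 2 n⌋₊ + 1) -
          ⌊(1 - ε) * Real.logb 2 n⌋₊) := by
  have hlog2 : 0 < Real.log 2 := Real.log_pos (by norm_num)
  have hlog2' : (1 : ℝ) / 2 < Real.log 2 := by
    have := Real.log_two_gt_d9
    linarith
  have hlog2'' : Real.log 2 < 1 := by
    have := Real.log_two_lt_d9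
    linarith
  have h1 := (isLittleO_log_rpow_rpow_atTop 2 hε).bound (show (0 : ℝ) < 1 / 64 by norm_num)
  have h2 := tendsto_natCast_atTop_atTop.eventually h1
  have h3 := (Real.isLittleO_log_id_atTop).bound (show (0 : ℝ) < 1 / 64 by norm_num)
  have h4 := tendsto_natCast_atTop_atTop.eventually h3
  filter_upwards [h2, h4, eventually_ge_atTop 100] with n hn hn' hn2
  set ρ := ⌊(1 - ε) * Real.logb 2 n⌋₊ with hρ
  have hn2' : (100 : ℝ) ≤ n := by exact_mod_cast hn2
  have hnpos : (0 : ℝ) < n := by linarith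
  have hlogn : 2 ≤ Real.log n := by
    have h5 : Real.log (2 ^ 4 : ℝ) ≤ Real.log n := by
      apply Real.log_le_log (by norm_num)
      linarith
    rw [Real.log_pow] at h5
    push_cast at h5
    linarith
  have hlogb : 0 ≤ Real.logb 2 n := Real.logb_nonneg (by norm_num) (by linarith)
  have hρ1 : (ρ : ℝ) ≤ (1 - ε) * Real.logb 2 n := Nat.floor_le (by nlinarith)
  have hρ2 : (ρ : ℝ) ≤ 2 * Real.log n := by
    have h5 : Real.logb 2 n ≤ 2 * Real.log n := by
      rw [Real.logb, div_le_iff₀ hlog2]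
      nlinarith
    have h6 : (1 - ε) * Real.logb 2 n ≤ Real.logb 2 n := by nlinarith
    linarith
  rw [Real.norm_of_nonneg (by positivity), Real.norm_of_nonneg (by positivity)] at hn
  rw [Real.norm_of_nonneg (by positivity), id, Real.norm_of_nonneg (by positivity)] at hn'
  have hρn : (ρ : ℝ) ≤ n / 32 := by linarith
  have hρn' : 32 * ρ ≤ n := by
    have : (32 : ℝ) * ρ ≤ n := by linarith
    exact_mod_cast this
  have hM : (n + ρ) - (ρ + 1) - ρ = n - 1 - ρ := by omega
  rw [hM]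
  set M := n - 1 - ρ with hMdef
  have hM2 : n ≤ 2 * M := by omega
  have hM2' : (n : ℝ) / 2 ≤ M := by
    have : (n : ℝ) ≤ 2 * M := by exact_mod_cast hM2
    linarith
  -- bound for `2 ^ (ρ + 1)`
  have hg : ((2 : ℝ) ^ (ρ + 1)) ≤ 2 * (n : ℝ) ^ (1 - ε) := by
    have h5 : (2 : ℝ) ^ (ρ : ℝ) ≤ (n : ℝ) ^ (1 - ε) := by
      calc (2 : ℝ) ^ (ρ : ℝ) ≤ (2 : ℝ) ^ ((1 - ε) * Real.logb 2 n) :=
            Real.rpow_le_rpow_of_exponent_le (by norm_num) hρ1
        _ = ((2 : ℝ) ^ (Real.logb 2 n)) ^ (1 - ε) := by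
            rw [mul_comm, Real.rpow_mul (by norm_num)]
        _ = (n : ℝ) ^ (1 - ε) := by
            rw [Real.rpow_logb (by norm_num) (by norm_num) hnpos]
    rw [pow_succ]
    rw [Real.rpow_natCast] at h5
    linarith
  -- the real inequality
  have hgpos : (0 : ℝ) < 2 ^ (ρ + 1) := by positivity
  have hexp : ((2 : ℝ) ^ (ρ + 1) - 1) ^ M ≤ (2 ^ (ρ + 1)) ^ M * Real.exp (- ((n : ℝ) ^ ε / 4)) := by
    have h5 : (2 : ℝ) ^ (ρ + 1) - 1 ≤ 2 ^ (ρ + 1) * Real.exp (-(1 / 2 ^ (ρ + 1))) := by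
      have h6 := Real.add_one_le_exp (-(1 / (2 : ℝ) ^ (ρ + 1)))
      calc (2 : ℝ) ^ (ρ + 1) - 1 = 2 ^ (ρ + 1) * (-(1 / (2 : ℝ) ^ (ρ + 1)) + 1) := by
            field_simp
            ring
        _ ≤ _ := mul_le_mul_of_nonneg_left h6 hgpos.le
    have h7 : (0 : ℝ) ≤ (2 : ℝ) ^ (ρ + 1) - 1 := by
      have : (1 : ℝ) ≤ 2 ^ (ρ + 1) := one_le_pow₀ (by norm_num)
      linarith
    calc ((2 : ℝ) ^ (ρ + 1) - 1) ^ M ≤ (2 ^ (ρ + 1) * Real.exp (-(1 / 2 ^ (ρ + 1)))) ^ M :=
          pow_le_pow_left₀ h7 h5 M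
      _ = (2 ^ (ρ + 1)) ^ M * Real.exp (M * (-(1 / 2 ^ (ρ + 1)))) := by
          rw [mul_pow, ← Real.exp_nat_mul]
      _ ≤ _ := by
          apply mul_le_mul_of_nonneg_left _ (by positivity)
          apply Real.exp_le_exp.2
          have h8 : (n : ℝ) ^ ε / 4 ≤ M * (1 / 2 ^ (ρ + 1)) := by
            rw [mul_one_div, le_div_iff₀ hgpos]
            calc (n : ℝ) ^ ε / 4 * 2 ^ (ρ + 1) ≤ (n : ℝ) ^ ε / 4 * (2 * (n : ℝ) ^ (1 - ε)) :=
                  mul_le_mul_of_nonneg_left hg (by positivity)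
              _ = ((n : ℝ) ^ ε * (n : ℝ) ^ (1 - ε)) / 2 := by ring
              _ = (n : ℝ) / 2 := by
                  rw [← Real.rpow_add hnpos]
                  norm_num
              _ ≤ M := hM2'
          linarith
  have hpoly : (2 : ℝ) * (((n : ℝ) + ρ) ^ (ρ + 1) * ((n : ℝ) + ρ) ^ ρ) <
      Real.exp ((n : ℝ) ^ ε / 4) := by
    have h5 : ((n : ℝ) + ρ) ≤ Real.exp (2 * Real.log n) := by
      rw [two_mul, Real.exp_add, Real.exp_log hnpos]
      nlinarith
    have h6 : (2 : ℝ) < Real.exp (Real.log n) := by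
      rw [Real.exp_log hnpos]
      linarith
    have h7 : (0 : ℝ) ≤ (n : ℝ) + ρ := by positivity
    calc (2 : ℝ) * (((n : ℝ) + ρ) ^ (ρ + 1) * ((n : ℝ) + ρ) ^ ρ)
        = 2 * ((n : ℝ) + ρ) ^ (2 * ρ + 1) := by rw [← pow_add]; ring_nf
      _ ≤ 2 * (Real.exp (2 * Real.log n)) ^ (2 * ρ + 1) := by
          apply mul_le_mul_of_nonneg_left _ (by norm_num)
          exact pow_le_pow_left₀ h7 h5 _
      _ < Real.exp (Real.log n) * (Real.exp (2 * Real.log n)) ^ (2 * ρ + 1) := by
          apply mul_lt_mul_of_pos_right h6 (by positivity)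
      _ = Real.exp (Real.log n + ((2 * ρ + 1 : ℕ) : ℝ) * (2 * Real.log n)) := by
          rw [← Real.exp_nat_mul, ← Real.exp_add]
      _ ≤ Real.exp ((n : ℝ) ^ ε / 4) := by
          apply Real.exp_le_exp.2
          push_cast
          have h8 : (Real.log n) ^ (2 : ℝ) = (Real.log n) ^ 2 := by
            rw [← Real.rpow_natCast]
            norm_num
          rw [h8] at hn
          nlinarith
  have hreal : (2 : ℝ) * (((n : ℝ) + ρ) ^ (ρ + 1) * ((n : ℝ) + ρ) ^ ρ) *
      ((2 : ℝ) ^ (ρ + 1) - 1) ^ M < (2 ^ (ρ + 1)) ^ M := by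
    have h5 : (0 : ℝ) < (2 : ℝ) ^ (ρ + 1) - 1 := by
      have : (1 : ℝ) < 2 ^ (ρ + 1) := one_lt_pow₀ (by norm_num) (by omega)
      linarith
    calc (2 : ℝ) * (((n : ℝ) + ρ) ^ (ρ + 1) * ((n : ℝ) + ρ) ^ ρ) * ((2 : ℝ) ^ (ρ + 1) - 1) ^ M
        < Real.exp ((n : ℝ) ^ ε / 4) * ((2 : ℝ) ^ (ρ + 1) - 1) ^ M :=
          mul_lt_mul_of_pos_right hpoly (by positivity)
      _ ≤ Real.exp ((n : ℝ) ^ ε / 4) * ((2 ^ (ρ + 1)) ^ M * Real.exp (- ((n : ℝ) ^ ε / 4))) :=
          mul_le_mul_of_nonneg_left hexp (by positivity)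
      _ = (2 ^ (ρ + 1)) ^ M * (Real.exp ((n : ℝ) ^ ε / 4) * Real.exp (- ((n : ℝ) ^ ε / 4))) := by
          ring
      _ = (2 ^ (ρ + 1)) ^ M := by
          rw [← Real.exp_add]
          simp
  have hcast : ((2 ^ (ρ + 1) - 1 : ℕ) : ℝ) = (2 : ℝ) ^ (ρ + 1) - 1 := by
    rw [Nat.cast_sub Nat.one_le_two_pow]
    push_cast
    ring
  have : ((2 * ((n + ρ) ^ (ρ + 1) * (n + ρ) ^ ρ) * (2 ^ (ρ + 1) - 1) ^ M : ℕ) : ℝ) <
      (((2 ^ (ρ + 1)) ^ M : ℕ) : ℝ) := by
    rw [Nat.cast_mul, Nat.cast_pow (2 ^ (ρ + 1) - 1), hcast]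
    push_cast
    exact hreal
  exact_mod_cast this

/-- **The lower bound.** -/
theorem lower_bound {ε : ℝ} (hε : 0 < ε) (hε1 : ε < 1) :
    ∀ᶠ n : ℕ in atTop, (n : ℝ) + (1 - ε) * Real.logb 2 n ≤ minRamsey n := by
  filter_upwards [eventually_numeric hε hε1, eventually_ge_atTop 2] with n hn hn2
  have h1 := lt_minRamsey hn2 hn
  have h2 : (1 - ε) * Real.logb 2 n < ⌊(1 - ε) * Real.logb 2 n⌋₊ + 1 := Nat.lt_floor_add_one _
  have h3 : ((n + ⌊(1 - ε) * Real.logb 2 n⌋₊ + 1 : ℕ) : ℝ) ≤ minRamsey n := by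
    exact_mod_cast h1
  push_cast at h3
  linarith

end Pool.Agent.J6H57.MinRamsey
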