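import Pool.Agent.J6H57.MinRamsey.Upper
import Pool.Agent.J6H57.MinRamsey.Lower

/-!
# The minimum Ramsey number of graphs without isolated vertices

We prove that `f(n) = n + (1 + o(1)) log₂ n`, where `f(n)` is the minimum of the Ramsey numbers
`r(G)` over all graphs `G` with exactly `n` vertices and no isolated vertex.
-/

namespace Pool.Agent.J6H57.MinRamsey

open Filter Pool.Agent.J6H57.MinRamsey

/-- `(f(n) - n) / log₂ n → 1`, where `f(n) = minRamsey n` is the least Ramsey number of a graph
with exactly `n` vertices and no isolated vertex. -/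
theorem minRamsey_asymptotic :
    Filter.Tendsto (fun n : ℕ => ((minRamsey n : ℝ) - n) / Real.logb 2 n) Filter.atTop
      (nhds 1) := by
  rw [Metric.tendsto_nhds]
  intro ε hε
  have hδ : 0 < min (ε / 2) (1 / 2) := lt_min (by linarith) (by norm_num)
  have hδ1 : min (ε / 2) (1 / 2) ≤ 1 / 2 := min_le_right _ _
  have hδ2 : min (ε / 2) (1 / 2) ≤ ε / 2 := min_le_left _ _
  filter_upwards [upper_bound hδ (by linarith), lower_bound hδ (by linarith),
    eventually_ge_atTop 2] with n hup hlow hn
  have hn' : (2 : ℝ) ≤ n := by exact_mod_cast hn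
  have hlog : 0 < Real.logb 2 n := Real.logb_pos (by norm_num) (by linarith)
  rw [Real.dist_eq, abs_sub_lt_iff]
  constructor
  · have h1 : ((minRamsey n : ℝ) - n) / Real.logb 2 n ≤ 1 + min (ε / 2) (1 / 2) := by
      rw [div_le_iff₀ hlog]
      linarith
    linarith
  · have h1 : 1 - min (ε / 2) (1 / 2) ≤ ((minRamsey n : ℝ) - n) / Real.logb 2 n := by
      rw [le_div_iff₀ hlog]
      linarith
    linarith

end Pool.Agent.J6H57.MinRamsey
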