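import Pool.Agent.J6H57.MinRamsey.Defs

/-!
# A random colouring without small almost dominating sets
-/

set_option linter.unusedSectionVars false

namespace Pool.Agent.J6H57.MinRamsey

open Finset

section
variable {E ι : Type*} [Fintype E] [DecidableEq E] [DecidableEq ι]

/-- The sets which meet all `F v`, `v ∈ W`. -/
def meeting (F : ι → Finset E) (W : Finset ι) : Finset (Finset E) :=
  (Finset.univ : Finset (Finset E)).filter (fun S => ∀ v ∈ W, ∃ e ∈ F v, e ∈ S)

lemma card_meeting_step (F : ι → Finset E) (W : Finset ι) {v₀ : ι}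
    (hdis : ∀ v ∈ W, Disjoint (F v) (F v₀)) :
    (meeting F W).card =
      2 ^ (F v₀).card * ((meeting F W).filter (fun S => Disjoint S (F v₀))).card := by
  rw [← Finset.card_powerset, ← Finset.card_product]
  refine Finset.card_bij' (fun S _ => (S ∩ F v₀, S \ F v₀)) (fun P _ => P.2 ∪ P.1) ?_ ?_ ?_ ?_
  · intro S hS
    rw [Finset.mem_product, Finset.mem_powerset, Finset.mem_filter]
    refine ⟨Finset.inter_subset_right, ?_, Finset.sdiff_disjoint⟩
    rw [meeting, Finset.mem_filter] at hS ⊢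
    refine ⟨Finset.mem_univ _, fun v hv => ?_⟩
    obtain ⟨e, he, heS⟩ := hS.2 v hv
    exact ⟨e, he, Finset.mem_sdiff.2 ⟨heS, fun h => Finset.disjoint_left.1 (hdis v hv) he h⟩⟩
  · intro P hP
    rw [Finset.mem_product, Finset.mem_powerset, Finset.mem_filter] at hP
    obtain ⟨h1, h2, h3⟩ := hP
    rw [meeting, Finset.mem_filter] at h2 ⊢
    refine ⟨Finset.mem_univ _, fun v hv => ?_⟩
    obtain ⟨e, he, heS⟩ := h2.2 v hv
    exact ⟨e, he, Finset.mem_union_left _ heS⟩
  · intro S _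
    exact Finset.sdiff_union_inter _ _
  · intro P hP
    rw [Finset.mem_product, Finset.mem_powerset, Finset.mem_filter] at hP
    obtain ⟨h1, h2, h3⟩ := hP
    apply Prod.ext
    · ext e
      simp only [Finset.mem_inter, Finset.mem_union]
      constructor
      · rintro ⟨h | h, h'⟩
        · exact absurd h' (Finset.disjoint_left.1 h3 h)
        · exact h
      · intro h
        exact ⟨Or.inr h, h1 h⟩
    · ext e
      simp only [Finset.mem_sdiff, Finset.mem_union]
      constructor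
      · rintro ⟨h | h, h'⟩
        · exact h
        · exact absurd (h1 h) h'
      · intro h
        exact ⟨Or.inl h, Finset.disjoint_left.1 h3 h⟩

lemma card_meeting_insert (F : ι → Finset E) (W : Finset ι) {v₀ : ι}
    (hdis : ∀ v ∈ W, Disjoint (F v) (F v₀)) :
    2 ^ (F v₀).card * (meeting F (insert v₀ W)).card =
      (2 ^ (F v₀).card - 1) * (meeting F W).card := by
  have h1 := card_meeting_step F W hdis
  have h2 : (meeting F W).card = ((meeting F W).filter (fun S => Disjoint S (F v₀))).card +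
      (meeting F (insert v₀ W)).card := by
    rw [← Finset.card_filter_add_card_filter_not (s := meeting F W)
      (fun S => Disjoint S (F v₀))]
    congr 2
    ext S
    simp only [meeting, Finset.mem_filter, Finset.mem_univ, true_and, Finset.mem_insert,
      forall_eq_or_imp]
    constructor
    · rintro ⟨h, h'⟩
      refine ⟨?_, h⟩
      rw [Finset.not_disjoint_iff] at h'
      obtain ⟨e, he, he'⟩ := h'
      exact ⟨e, he', he⟩
    · rintro ⟨⟨e, he, heS⟩, h⟩
      exact ⟨h, Finset.not_disjoint_iff.2 ⟨e, heS, he⟩⟩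
  set a := (meeting F W).card
  set b := ((meeting F W).filter (fun S => Disjoint S (F v₀))).card
  set c := (meeting F (insert v₀ W)).card
  have h3 : 1 ≤ 2 ^ (F v₀).card := Nat.one_le_two_pow
  obtain ⟨d, hd⟩ := Nat.exists_eq_add_of_le h3
  rw [hd] at h1 ⊢
  have h4 : 1 + d - 1 = d := by omega
  rw [h4]
  have : c = d * b := by nlinarith
  rw [this, h1]
  ring

lemma card_meeting (F : ι → Finset E) (g : ℕ) (W : Finset ι)
    (hcard : ∀ v ∈ W, (F v).card = g)
    (hdis : ∀ v ∈ W, ∀ w ∈ W, v ≠ w → Disjoint (F v) (F w)) :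
    (2 ^ g) ^ W.card * (meeting F W).card = (2 ^ g - 1) ^ W.card * 2 ^ (Fintype.card E) := by
  induction W using Finset.induction_on with
  | empty => simp [meeting]
  | insert v₀ W hv₀ ih =>
    have h1 := ih (fun v hv => hcard v (Finset.mem_insert_of_mem hv))
      (fun v hv w hw hvw => hdis v (Finset.mem_insert_of_mem hv) w (Finset.mem_insert_of_mem hw) hvw)
    have h2 := card_meeting_insert F W (v₀ := v₀) (fun v hv =>
      hdis v (Finset.mem_insert_of_mem hv) v₀ (Finset.mem_insert_self _ _)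
        (fun h => hv₀ (h ▸ hv)))
    rw [hcard v₀ (Finset.mem_insert_self _ _)] at h2
    rw [Finset.card_insert_of_notMem hv₀, pow_succ, mul_assoc, h2]
    calc (2 ^ g) ^ W.card * ((2 ^ g - 1) * (meeting F W).card)
        = (2 ^ g - 1) * ((2 ^ g) ^ W.card * (meeting F W).card) := by ring
      _ = (2 ^ g - 1) * ((2 ^ g - 1) ^ W.card * 2 ^ Fintype.card E) := by rw [h1]
      _ = _ := by ring

end

/-- The graph whose edges are the pairs in `S`. -/
def graphOf {N : ℕ} (S : Finset (Sym2 (Fin N))) : SimpleGraph (Fin N) where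
  Adj u v := u ≠ v ∧ s(u, v) ∈ S
  symm := ⟨fun u v h => ⟨h.1.symm, by rw [Sym2.eq_swap]; exact h.2⟩⟩
  loopless := ⟨fun _ h => h.1 rfl⟩

/-- There is a colouring such that for every set `X` of `g` vertices, more than `ρ` vertices are
joined to `X` only by blue edges, and more than `ρ` vertices are joined to `X` only by red
edges. -/
theorem exists_coloring {N g ρ : ℕ} (hρ : ρ ≤ N)
    (h : 2 * (N ^ g * N ^ ρ) * (2 ^ g - 1) ^ (N - g - ρ) < (2 ^ g) ^ (N - g - ρ)) :
    ∃ R : SimpleGraph (Fin N), ∀ X : Finset (Fin N), X.card = g → ∀ Y : Finset (Fin N),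
      Y.card ≤ ρ → (∃ v, v ∉ X ∧ v ∉ Y ∧ ∀ x ∈ X, ¬ R.Adj x v) ∧
        (∃ v, v ∉ X ∧ v ∉ Y ∧ ∀ x ∈ X, ¬ Rᶜ.Adj x v) := by
  classical
  let F : Finset (Fin N) → Fin N → Finset (Sym2 (Fin N)) := fun X v => X.image (fun x => s(x, v))
  have hFc : ∀ X v, v ∉ X → (F X v).card = X.card := by
    intro X v hv
    apply Finset.card_image_of_injOn
    intro a ha b hb hab
    simp only [Sym2.eq_iff] at hab
    rcases hab with h | h
    · exact h.1
    · exact absurd (h.1 ▸ ha) hv
  have hFd : ∀ X v w, v ∉ X → w ∉ X → v ≠ w → Disjoint (F X v) (F X w) := by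
    intro X v w hv hw hvw
    rw [Finset.disjoint_left]
    intro e he he'
    obtain ⟨x, hx, rfl⟩ := Finset.mem_image.1 he
    obtain ⟨y, hy, hxy⟩ := Finset.mem_image.1 he'
    simp only [Sym2.eq_iff] at hxy
    rcases hxy with h | h
    · exact hvw h.2.symm
    · exact hw (h.2 ▸ hx)
  -- bad colourings
  let bad : Finset (Fin N) × Finset (Fin N) → Finset (Finset (Sym2 (Fin N))) := fun P =>
    meeting (F P.1) (univ \ (P.1 ∪ P.2))
  let T := ((univ : Finset (Fin N)).powersetCard g) ×ˢ ((univ : Finset (Fin N)).powersetCard ρ)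
  have hTc : T.card ≤ N ^ g * N ^ ρ := by
    rw [Finset.card_product, Finset.card_powersetCard, Finset.card_powersetCard, Finset.card_univ,
      Fintype.card_fin]
    exact Nat.mul_le_mul (Nat.choose_le_pow _ _) (Nat.choose_le_pow _ _)
  have hbad : ∀ P ∈ T, (2 ^ g) ^ (N - g - ρ) * (bad P).card ≤
      (2 ^ g - 1) ^ (N - g - ρ) * 2 ^ Fintype.card (Sym2 (Fin N)) := by
    intro P hP
    rw [Finset.mem_product, Finset.mem_powersetCard, Finset.mem_powersetCard] at hP
    have h0 : N - g - ρ ≤ (univ \ (P.1 ∪ P.2)).card := by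
      have h1 := Finset.le_card_sdiff (P.1 ∪ P.2) univ
      have h2 := Finset.card_union_le P.1 P.2
      rw [Finset.card_univ, Fintype.card_fin] at h1
      omega
    obtain ⟨W, hW, hWc⟩ := Finset.exists_subset_card_eq h0
    have h1 : bad P ⊆ meeting (F P.1) W := by
      intro S hS
      simp only [bad, meeting, Finset.mem_filter] at hS ⊢
      exact ⟨hS.1, fun v hv => hS.2 v (hW hv)⟩
    have hWX : ∀ v ∈ W, v ∉ P.1 := by
      intro v hv h
      exact (Finset.mem_sdiff.1 (hW hv)).2 (Finset.mem_union_left _ h)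
    have h2 := card_meeting (F P.1) g W (fun v hv => by rw [hFc _ _ (hWX v hv)]; exact hP.1.2)
      (fun v hv w hw hvw => hFd _ _ _ (hWX v hv) (hWX w hw) hvw)
    rw [hWc] at h2
    rw [← h2]
    exact Nat.mul_le_mul_left _ (Finset.card_le_card h1)
  -- the union of all bad colourings
  let Bad1 := T.biUnion bad
  let Bad2 := Bad1.image (fun S => Sᶜ)
  have hB1 : (2 ^ g) ^ (N - g - ρ) * Bad1.card ≤
      (N ^ g * N ^ ρ) * ((2 ^ g - 1) ^ (N - g - ρ) * 2 ^ Fintype.card (Sym2 (Fin N))) := by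
    calc (2 ^ g) ^ (N - g - ρ) * Bad1.card
        ≤ (2 ^ g) ^ (N - g - ρ) * ∑ P ∈ T, (bad P).card :=
          Nat.mul_le_mul_left _ Finset.card_biUnion_le
      _ = ∑ P ∈ T, (2 ^ g) ^ (N - g - ρ) * (bad P).card := Finset.mul_sum _ _ _
      _ ≤ ∑ _P ∈ T, ((2 ^ g - 1) ^ (N - g - ρ) * 2 ^ Fintype.card (Sym2 (Fin N))) :=
          Finset.sum_le_sum hbad
      _ = T.card * ((2 ^ g - 1) ^ (N - g - ρ) * 2 ^ Fintype.card (Sym2 (Fin N))) := by
          rw [Finset.sum_const, smul_eq_mul]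
      _ ≤ _ := Nat.mul_le_mul_right _ hTc
  have hB2 : Bad2.card ≤ Bad1.card := Finset.card_image_le
  have hlt : (Bad1 ∪ Bad2).card < Fintype.card (Finset (Sym2 (Fin N))) := by
    rw [Fintype.card_finset]
    have h1 : (2 ^ g) ^ (N - g - ρ) * (Bad1 ∪ Bad2).card ≤
        2 * (N ^ g * N ^ ρ) * (2 ^ g - 1) ^ (N - g - ρ) * 2 ^ Fintype.card (Sym2 (Fin N)) := by
      calc (2 ^ g) ^ (N - g - ρ) * (Bad1 ∪ Bad2).card
          ≤ (2 ^ g) ^ (N - g - ρ) * (2 * Bad1.card) := by
            apply Nat.mul_le_mul_left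
            have := Finset.card_union_le Bad1 Bad2
            omega
        _ = 2 * ((2 ^ g) ^ (N - g - ρ) * Bad1.card) := by ring
        _ ≤ 2 * ((N ^ g * N ^ ρ) * ((2 ^ g - 1) ^ (N - g - ρ) *
            2 ^ Fintype.card (Sym2 (Fin N)))) := Nat.mul_le_mul_left _ hB1
        _ = _ := by ring
    have h2 : (2 ^ g) ^ (N - g - ρ) * (Bad1 ∪ Bad2).card <
        (2 ^ g) ^ (N - g - ρ) * 2 ^ Fintype.card (Sym2 (Fin N)) :=
      h1.trans_lt (Nat.mul_lt_mul_of_pos_right h (by positivity))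
    exact Nat.lt_of_mul_lt_mul_left h2
  obtain ⟨S, hS⟩ : ∃ S : Finset (Sym2 (Fin N)), S ∉ Bad1 ∪ Bad2 := by
    by_contra hcon
    push Not at hcon
    have : (Bad1 ∪ Bad2) = univ := Finset.eq_univ_iff_forall.2 hcon
    rw [this, Finset.card_univ] at hlt
    exact lt_irrefl _ hlt
  rw [Finset.mem_union, not_or] at hS
  -- the key property of sets outside `Bad1`
  have key : ∀ S' : Finset (Sym2 (Fin N)), S' ∉ Bad1 → ∀ X : Finset (Fin N), X.card = g →
      ∀ Y : Finset (Fin N), Y.card ≤ ρ → ∃ v, v ∉ X ∧ v ∉ Y ∧ ∀ x ∈ X, s(x, v) ∉ S' := by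
    intro S' hS' X hX Y hY
    obtain ⟨Y', hYY', hY'⟩ := Finset.exists_superset_card_eq hY (by simpa using hρ)
    have h1 : S' ∉ bad (X, Y') := by
      intro h1
      apply hS'
      exact Finset.mem_biUnion.2 ⟨(X, Y'), Finset.mem_product.2
        ⟨Finset.mem_powersetCard.2 ⟨Finset.subset_univ _, hX⟩,
          Finset.mem_powersetCard.2 ⟨Finset.subset_univ _, hY'⟩⟩, h1⟩
    simp only [bad, meeting, Finset.mem_filter, Finset.mem_univ, true_and, not_forall] at h1
    obtain ⟨v, hv, hv'⟩ := h1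
    rw [Finset.mem_sdiff, Finset.mem_union, not_or] at hv
    refine ⟨v, hv.2.1, fun h => hv.2.2 (hYY' h), fun x hx hxS => hv' ?_⟩
    exact ⟨s(x, v), Finset.mem_image_of_mem _ hx, hxS⟩
  have hS2 : Sᶜ ∉ Bad1 := by
    intro h1
    apply hS.2
    exact Finset.mem_image.2 ⟨Sᶜ, h1, compl_compl S⟩
  refine ⟨graphOf S, fun X hX Y hY => ⟨?_, ?_⟩⟩
  · obtain ⟨v, h1, h2, h3⟩ := key S hS.1 X hX Y hY
    exact ⟨v, h1, h2, fun x hx hadj => h3 x hx hadj.2⟩
  · obtain ⟨v, h1, h2, h3⟩ := key Sᶜ hS2 X hX Y hY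
    refine ⟨v, h1, h2, fun x hx hadj => ?_⟩
    rw [SimpleGraph.compl_adj] at hadj
    apply hadj.2
    have h4 := h3 x hx
    rw [Finset.mem_compl, not_not] at h4
    exact ⟨hadj.1, h4⟩

end Pool.Agent.J6H57.MinRamsey
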