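import Mathlib

/-!
# The minimum Ramsey number of graphs without isolated vertices: definitions
-/

namespace Pool.Agent.J6H57.MinRamsey

open SimpleGraph

/-- `Arrows N G`: every colouring of the edges of the complete graph on `N` vertices with two
colours, red and blue, contains a monochromatic copy of `G`. A colouring is given by the graph `R`
of the red edges; the blue edges are the edges of the complement `Rᶜ`. A copy of `G` is a (not
necessarily induced) subgraph isomorphic to `G`. -/
def Arrows {V : Type*} (N : ℕ) (G : SimpleGraph V) : Prop :=
  ∀ R : SimpleGraph (Fin N), G.IsContained R ∨ G.IsContained Rᶜ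

/-- The Ramsey number `r(G)`: the least `N` such that every colouring of the edges of `K_N` with
two colours contains a monochromatic copy of `G`. -/
noncomputable def ramseyNumber {V : Type*} (G : SimpleGraph V) : ℕ :=
  sInf {N : ℕ | Arrows N G}

/-- `minRamsey n` is the minimum of `r(G)` over all graphs `G` with exactly `n` vertices and
without isolated vertices. -/
noncomputable def minRamsey (n : ℕ) : ℕ :=
  sInf {m : ℕ | ∃ G : SimpleGraph (Fin n), (∀ v, ∃ w, G.Adj v w) ∧ ramseyNumber G = m}

end Pool.Agent.J6H57.MinRamsey
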