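import Pool.Agent.J6H57.MinRamsey.Defs

/-!
# Embedding star forests: Hall's theorem and the greedy step
-/

namespace Pool.Agent.J6H57.MinRamsey

open Finset

section
variable {V : Type*} [Fintype V] [DecidableEq V]

open Classical in
/-- The neighbours of the centres `x i`, `i ∈ I`. -/
noncomputable def nb (H : SimpleGraph V) (x : ℕ → V) (I : Finset ℕ) : Finset V :=
  Finset.univ.filter (fun v => ∃ i ∈ I, H.Adj (x i) v)

open Classical in
/-- The neighbourhood of a vertex. -/
noncomputable def nbv (H : SimpleGraph V) (v : V) : Finset V :=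
  Finset.univ.filter (fun w => H.Adj v w)

lemma mem_nb {H : SimpleGraph V} {x : ℕ → V} {I : Finset ℕ} {v : V} :
    v ∈ nb H x I ↔ ∃ i ∈ I, H.Adj (x i) v := by
  classical
  simp [nb]

lemma mem_nbv {H : SimpleGraph V} {v w : V} : w ∈ nbv H v ↔ H.Adj v w := by
  classical
  simp [nbv]

/-- A state of the greedy procedure: `m` centres have been chosen, `Z` is the set of the vertices
of `Ω` which are not yet covered. -/
structure State (H : SimpleGraph V) (s : ℕ → ℕ) (Ω : Finset V) (σ m : ℕ) (x : ℕ → V)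
    (Z : Finset V) : Prop where
  inj : ∀ i < m, ∀ j < m, x i = x j → i = j
  sub : Z ⊆ Ω
  card : Z.card + ∑ j ∈ range m, s j = Ω.card
  hall : ∀ I ⊆ range m, ∑ i ∈ I, s i ≤ ((nb H x I ∩ Ω) \ Z).card
  spare : ∀ I ⊆ range m, I.Nonempty → ∑ i ∈ I, s i + σ ≤ (nb H x I ∩ Ω).card

lemma State.zero (H : SimpleGraph V) (s : ℕ → ℕ) (Ω : Finset V) (σ : ℕ) (x : ℕ → V) :
    State H s Ω σ 0 x Ω where
  inj := by intro i hi; omega
  sub := subset_rfl
  card := by simp
  hall := by
    intro I hI
    have : I = ∅ := by simpa using hI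
    subst this
    simp
  spare := by
    intro I hI hne
    have : I = ∅ := by simpa using hI
    subst this
    simp at hne

lemma nb_congr {H : SimpleGraph V} {x y : ℕ → V} {I : Finset ℕ} (h : ∀ i ∈ I, x i = y i) :
    nb H x I = nb H y I := by
  ext v
  simp only [mem_nb]
  constructor
  · rintro ⟨i, hi, ha⟩
    exact ⟨i, hi, by rw [← h i hi]; exact ha⟩
  · rintro ⟨i, hi, ha⟩
    exact ⟨i, hi, by rw [h i hi]; exact ha⟩

/-- The greedy step. -/
lemma State.step {H : SimpleGraph V} {s : ℕ → ℕ} {Ω : Finset V} {σ m : ℕ} {x : ℕ → V}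
    {Z : Finset V} (S : State H s Ω σ m x Z) {v : V} (hv : ∀ i < m, x i ≠ v)
    (hc : s m + σ ≤ (nbv H v ∩ Z).card) :
    ∃ Z', State H s Ω σ (m + 1) (Function.update x m v) Z' := by
  obtain ⟨L, hL, hLc⟩ := Finset.exists_subset_card_eq (s := nbv H v ∩ Z) (n := s m) (by omega)
  have hLZ : L ⊆ Z := fun w hw => (Finset.mem_inter.1 (hL hw)).2
  have hLv : L ⊆ nbv H v := fun w hw => (Finset.mem_inter.1 (hL hw)).1
  refine ⟨Z \ L, ?_, ?_, ?_, ?_, ?_⟩
  · intro i hi j hj h
    by_cases hi' : i = m <;> by_cases hj' : j = m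
    · omega
    · subst hi'
      rw [Function.update_self, Function.update_of_ne hj'] at h
      exact absurd h.symm (hv j (by omega))
    · subst hj'
      rw [Function.update_self, Function.update_of_ne hi'] at h
      exact absurd h (hv i (by omega))
    · rw [Function.update_of_ne hi', Function.update_of_ne hj'] at h
      exact S.inj i (by omega) j (by omega) h
  · exact (Finset.sdiff_subset).trans S.sub
  · rw [Finset.sum_range_succ, Finset.card_sdiff_of_subset hLZ]
    have h1 := S.card
    have h2 := Finset.card_le_card hLZ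
    omega
  · intro I hI
    have hI' : I.erase m ⊆ range m := by
      intro i hi
      have h1 := Finset.mem_erase.1 hi
      have h2 := Finset.mem_range.1 (hI h1.2)
      exact Finset.mem_range.2 (by omega)
    have hnb : nb H (Function.update x m v) (I.erase m) = nb H x (I.erase m) := by
      apply nb_congr
      intro i hi
      exact Function.update_of_ne (Finset.ne_of_mem_erase hi) _ _
    by_cases hm : m ∈ I
    · rw [← Finset.add_sum_erase I s hm]
      have h1 := S.hall _ hI'
      have hsub : ((nb H x (I.erase m) ∩ Ω) \ Z) ∪ L ⊆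
          (nb H (Function.update x m v) I ∩ Ω) \ (Z \ L) := by
        intro w hw
        rcases Finset.mem_union.1 hw with hw | hw
        · rw [← hnb] at hw
          simp only [Finset.mem_sdiff, Finset.mem_inter, mem_nb] at hw ⊢
          obtain ⟨⟨⟨i, hi, ha⟩, hΩ⟩, hZ⟩ := hw
          exact ⟨⟨⟨i, Finset.mem_of_mem_erase hi, ha⟩, hΩ⟩, fun h => hZ h.1⟩
        · simp only [Finset.mem_sdiff, Finset.mem_inter, mem_nb]
          refine ⟨⟨⟨m, hm, ?_⟩, S.sub (hLZ hw)⟩, fun h => h.2 hw⟩
          rw [Function.update_self]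
          exact mem_nbv.1 (hLv hw)
      have hdis : Disjoint ((nb H x (I.erase m) ∩ Ω) \ Z) L := by
        rw [Finset.disjoint_left]
        intro w hw hwL
        exact (Finset.mem_sdiff.1 hw).2 (hLZ hwL)
      have h2 := Finset.card_le_card hsub
      rw [Finset.card_union_of_disjoint hdis] at h2
      omega
    · rw [Finset.erase_eq_of_notMem hm] at hI' hnb
      rw [hnb]
      refine (S.hall _ hI').trans (Finset.card_le_card ?_)
      exact Finset.sdiff_subset_sdiff subset_rfl Finset.sdiff_subset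
  · intro I hI hne
    have hI' : I.erase m ⊆ range m := by
      intro i hi
      have h1 := Finset.mem_erase.1 hi
      have h2 := Finset.mem_range.1 (hI h1.2)
      exact Finset.mem_range.2 (by omega)
    have hnb : nb H (Function.update x m v) (I.erase m) = nb H x (I.erase m) := by
      apply nb_congr
      intro i hi
      exact Function.update_of_ne (Finset.ne_of_mem_erase hi) _ _
    by_cases hm : m ∈ I
    · rw [← Finset.add_sum_erase I s hm]
      have h1 := S.hall _ hI'
      have hsub : ((nb H x (I.erase m) ∩ Ω) \ Z) ∪ (nbv H v ∩ Z) ⊆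
          (nb H (Function.update x m v) I ∩ Ω) := by
        intro w hw
        rcases Finset.mem_union.1 hw with hw | hw
        · rw [← hnb] at hw
          simp only [Finset.mem_sdiff, Finset.mem_inter, mem_nb] at hw ⊢
          obtain ⟨⟨⟨i, hi, ha⟩, hΩ⟩, hZ⟩ := hw
          exact ⟨⟨i, Finset.mem_of_mem_erase hi, ha⟩, hΩ⟩
        · simp only [Finset.mem_inter, mem_nb] at hw ⊢
          refine ⟨⟨m, hm, ?_⟩, S.sub hw.2⟩
          rw [Function.update_self]
          exact mem_nbv.1 hw.1
      have hdis : Disjoint ((nb H x (I.erase m) ∩ Ω) \ Z) (nbv H v ∩ Z) := by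
        rw [Finset.disjoint_left]
        intro w hw hwL
        exact (Finset.mem_sdiff.1 hw).2 (Finset.mem_inter.1 hwL).2
      have h2 := Finset.card_le_card hsub
      rw [Finset.card_union_of_disjoint hdis] at h2
      omega
    · rw [Finset.erase_eq_of_notMem hm] at hI' hnb
      rw [hnb]
      exact S.spare _ hI' hne

/-- Hall's theorem in the form we need: if every set `I` of centres has at least `∑ i ∈ I, s i`
neighbours in `W`, then there are disjoint sets `L i` of `s i` neighbours of `x i` in `W`. -/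
lemma exists_leaves {H : SimpleGraph V} {s : ℕ → ℕ} {W : Finset V} {m : ℕ} {x : ℕ → V}
    (h : ∀ I ⊆ range m, ∑ i ∈ I, s i ≤ (nb H x I ∩ W).card) :
    ∃ f : (Σ i : Fin m, Fin (s i)) → V, Function.Injective f ∧
      ∀ a, H.Adj (x a.1) (f a) ∧ f a ∈ W := by
  classical
  let t : (Σ i : Fin m, Fin (s i)) → Finset V := fun a => nbv H (x a.1) ∩ W
  have key : ∀ A : Finset (Σ i : Fin m, Fin (s i)), A.card ≤ (A.biUnion t).card := by
    intro A
    let J : Finset (Fin m) := A.image Sigma.fst
    let I : Finset ℕ := J.image (fun i : Fin m => (i : ℕ))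
    have hI : I ⊆ range m := by
      intro i hi
      obtain ⟨j, _, rfl⟩ := Finset.mem_image.1 hi
      exact Finset.mem_range.2 j.2
    have h1 : A.card ≤ ∑ i ∈ I, s i := by
      have h2 : A ⊆ J.sigma (fun i => (Finset.univ : Finset (Fin (s i)))) := by
        intro a ha
        rw [Finset.mem_sigma]
        exact ⟨Finset.mem_image_of_mem _ ha, Finset.mem_univ _⟩
      have h3 := Finset.card_le_card h2
      rw [Finset.card_sigma] at h3
      have h4 : ∑ i ∈ I, s i = ∑ i ∈ J, s i :=
        Finset.sum_image (fun a _ b _ hab => Fin.ext hab)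
      rw [h4]
      simpa using h3
    have h5 : nb H x I ∩ W ⊆ A.biUnion t := by
      intro v hv
      rw [Finset.mem_inter, mem_nb] at hv
      obtain ⟨⟨i, hi, ha⟩, hW⟩ := hv
      obtain ⟨j, hj, rfl⟩ := Finset.mem_image.1 hi
      obtain ⟨a, haA, rfl⟩ := Finset.mem_image.1 hj
      rw [Finset.mem_biUnion]
      exact ⟨a, haA, Finset.mem_inter.2 ⟨mem_nbv.2 ha, hW⟩⟩
    exact h1.trans ((h I hI).trans (Finset.card_le_card h5))
  obtain ⟨f, hf, hft⟩ := (Finset.all_card_le_biUnion_card_iff_exists_injective t).1 key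
  refine ⟨f, hf, fun a => ?_⟩
  have := hft a
  rw [Finset.mem_inter, mem_nbv] at this
  exact this

end

/-- The star forest with `k` components, the `i`-th of which is a star with `s i` leaves and
centre `⟨i, 0⟩`. -/
def starForest (k : ℕ) (s : ℕ → ℕ) : SimpleGraph (Σ i : Fin k, Fin (s i + 1)) where
  Adj a b := a.1 = b.1 ∧ ((a.2.val = 0 ∧ b.2.val ≠ 0) ∨ (a.2.val ≠ 0 ∧ b.2.val = 0))
  symm := ⟨fun a b h => ⟨h.1.symm, h.2.elim (fun h => Or.inr ⟨h.2, h.1⟩)
    (fun h => Or.inl ⟨h.2, h.1⟩)⟩⟩
  loopless := ⟨fun a h => by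
    rcases h.2 with h | h
    · exact h.2 h.1
    · exact h.1 h.2⟩

section
variable {V : Type*} [Fintype V] [DecidableEq V]

/-- A star forest can be embedded if the centres satisfy Hall's condition. -/
lemma contained_of_hall {H : SimpleGraph V} {k : ℕ} {s : ℕ → ℕ} {W : Finset V} {x : ℕ → V}
    (hinj : ∀ i < k, ∀ j < k, x i = x j → i = j) (hW : ∀ i < k, x i ∉ W)
    (h : ∀ I ⊆ range k, ∑ i ∈ I, s i ≤ (nb H x I ∩ W).card) :
    (starForest k s).IsContained H := by
  classical
  obtain ⟨f, hf, hfa⟩ := exists_leaves h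
  let φ : (Σ i : Fin k, Fin (s i + 1)) → V := fun a =>
    Fin.cases (motive := fun _ => V) (x a.1) (fun j => f ⟨a.1, j⟩) a.2
  have φ0 : ∀ i : Fin k, φ ⟨i, 0⟩ = x i := fun i => rfl
  have φs : ∀ (i : Fin k) (j : Fin (s i)), φ ⟨i, j.succ⟩ = f ⟨i, j⟩ := fun i j => rfl
  have hφ : Function.Injective φ := by
    rintro ⟨i, a⟩ ⟨j, b⟩ hab
    induction a using Fin.cases with
    | zero =>
      induction b using Fin.cases with
      | zero =>
        rw [φ0, φ0] at hab
        have := hinj i i.2 j j.2 hab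
        have hij : i = j := Fin.ext this
        subst hij
        rfl
      | succ b =>
        rw [φ0, φs] at hab
        exact absurd (hab ▸ (hfa ⟨j, b⟩).2) (hW i i.2)
    | succ a =>
      induction b using Fin.cases with
      | zero =>
        rw [φ0, φs] at hab
        exact absurd (hab ▸ (hfa ⟨i, a⟩).2) (hW j j.2)
      | succ b =>
        rw [φs, φs] at hab
        have := hf hab
        cases this
        rfl
  refine ⟨⟨⟨φ, ?_⟩, hφ⟩⟩
  rintro ⟨i, a⟩ ⟨j, b⟩ hadj
  obtain ⟨hij, hab⟩ := (show (i = j ∧ ((a.val = 0 ∧ b.val ≠ 0) ∨ (a.val ≠ 0 ∧ b.val = 0))) from hadj)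
  subst hij
  show H.Adj (φ ⟨i, a⟩) (φ ⟨i, b⟩)
  rcases hab with ⟨ha, hb⟩ | ⟨ha, hb⟩
  · have ha' : a = 0 := Fin.ext ha
    subst ha'
    induction b using Fin.cases with
    | zero => exact absurd rfl hb
    | succ b' =>
      rw [φ0, φs]
      exact (hfa ⟨i, b'⟩).1
  · have hb' : b = 0 := Fin.ext hb
    subst hb'
    induction a using Fin.cases with
    | zero => exact absurd rfl ha
    | succ a' =>
      rw [φ0, φs]
      exact (hfa ⟨i, a'⟩).1.symm

end

end Pool.Agent.J6H57.MinRamsey
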