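import Pool.Agent.J6H57.MinRamsey.Embed

/-!
# Every two-colouring of a slightly larger complete graph contains the star forest
-/

set_option linter.unusedSectionVars false

namespace Pool.Agent.J6H57.MinRamsey

open Finset

section
variable {V : Type*} [Fintype V] [DecidableEq V]

lemma card_filter_fin {K : ℕ} {s : ℕ → ℕ} {I : Finset ℕ} (hI : I ⊆ range K) :
    ((Finset.univ : Finset (Σ i : Fin K, Fin (s i))).filter (fun a => (a.1 : ℕ) ∈ I)).card =
      ∑ i ∈ I, s i := by
  classical
  have h1 : (Finset.univ : Finset (Σ i : Fin K, Fin (s i))).filter (fun a => (a.1 : ℕ) ∈ I) =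
      ((Finset.univ : Finset (Fin K)).filter (fun i : Fin K => (i : ℕ) ∈ I)).sigma
        (fun i => (Finset.univ : Finset (Fin (s i)))) := by
    ext a
    simp
  have h2 : I = ((Finset.univ : Finset (Fin K)).filter (fun i : Fin K => (i : ℕ) ∈ I)).image
      (fun i : Fin K => (i : ℕ)) := by
    ext i
    simp only [Finset.mem_image, Finset.mem_filter, Finset.mem_univ, true_and]
    constructor
    · intro hi
      exact ⟨⟨i, Finset.mem_range.1 (hI hi)⟩, hi, rfl⟩
    · rintro ⟨j, hj, rfl⟩
      exact hj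
  rw [h1, Finset.card_sigma]
  conv_rhs => rw [h2]
  rw [Finset.sum_image (fun a _ b _ hab => Fin.ext hab)]
  simp

/-- Transition from nominal to actual leaf sets. -/
lemma State.transition {H : SimpleGraph V} {s : ℕ → ℕ} {σ τ K : ℕ} {x : ℕ → V} {Z : Finset V}
    (S : State H s univ σ K x Z) (hσ : K + τ ≤ σ) :
    ∃ Z', State H s (univ \ (range K).image x) τ K x Z' := by
  classical
  set W : Finset V := univ \ (range K).image x with hW
  have hXc : ((range K).image x).card ≤ K := by
    simpa using Finset.card_image_le (s := range K) (f := x)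
  have hlow : ∀ I : Finset ℕ, (nb H x I).card ≤ (nb H x I ∩ W).card + K := by
    intro I
    have h1 : nb H x I ∩ W = nb H x I \ (range K).image x := by
      ext v
      simp [hW]
    rw [h1]
    have := Finset.le_card_sdiff ((range K).image x) (nb H x I)
    omega
  have hsp : ∀ I ⊆ range K, I.Nonempty → ∑ i ∈ I, s i + τ ≤ (nb H x I ∩ W).card := by
    intro I hI hne
    have h1 := S.spare I hI hne
    rw [Finset.inter_univ] at h1
    have h2 := hlow I
    omega
  have hh : ∀ I ⊆ range K, ∑ i ∈ I, s i ≤ (nb H x I ∩ W).card := by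
    intro I hI
    rcases I.eq_empty_or_nonempty with rfl | hne
    · simp
    · have := hsp I hI hne
      omega
  obtain ⟨f, hf, hfa⟩ := exists_leaves hh
  refine ⟨W \ Finset.univ.image f, S.inj, Finset.sdiff_subset, ?_, ?_, hsp⟩
  · have h1 : Finset.univ.image f ⊆ W := by
      intro v hv
      obtain ⟨a, _, rfl⟩ := Finset.mem_image.1 hv
      exact (hfa a).2
    have h2 : (Finset.univ.image f).card = ∑ j ∈ range K, s j := by
      rw [Finset.card_image_of_injective _ hf, ← card_filter_fin (subset_refl (range K))]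
      congr 1
      symm
      rw [Finset.filter_true_of_mem]
      intro a _
      exact Finset.mem_range.2 a.1.2
    rw [Finset.card_sdiff_of_subset h1, h2]
    have h3 := Finset.card_le_card h1
    omega
  · intro I hI
    rw [← card_filter_fin hI, ← Finset.card_image_of_injective _ hf]
    apply Finset.card_le_card
    intro v hv
    obtain ⟨a, ha, rfl⟩ := Finset.mem_image.1 hv
    have ha' := (Finset.mem_filter.1 ha).2
    rw [Finset.mem_sdiff, Finset.mem_inter, mem_nb]
    refine ⟨⟨⟨a.1, ha', (hfa a).1⟩, (hfa a).2⟩, ?_⟩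
    intro h
    exact (Finset.mem_sdiff.1 h).2 (Finset.mem_image_of_mem _ (Finset.mem_univ _))

/-- Run the greedy procedure: it either finishes or gets stuck. -/
lemma run {H : SimpleGraph V} {s : ℕ → ℕ} {Ω : Finset V} {σ m₀ : ℕ} {x₀ : ℕ → V} {Z₀ : Finset V}
    (S : State H s Ω σ m₀ x₀ Z₀) (K : ℕ) (hK : m₀ ≤ K) :
    (∃ x Z, State H s Ω σ K x Z ∧ ∀ i < m₀, x i = x₀ i) ∨
    (∃ m x Z, m₀ ≤ m ∧ m < K ∧ State H s Ω σ m x Z ∧ (∀ i < m₀, x i = x₀ i) ∧
      ∀ v, (∀ i < m, x i ≠ v) → (nbv H v ∩ Z).card < s m + σ) := by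
  induction K, hK using Nat.le_induction with
  | base => exact Or.inl ⟨x₀, Z₀, S, fun _ _ => rfl⟩
  | succ K hK ih =>
    rcases ih with ⟨x, Z, hS, hx⟩ | ⟨m, x, Z, h1, h2, h3⟩
    · by_cases hv : ∃ v, (∀ i < K, x i ≠ v) ∧ s K + σ ≤ (nbv H v ∩ Z).card
      · obtain ⟨v, hv1, hv2⟩ := hv
        obtain ⟨Z', hZ'⟩ := hS.step hv1 hv2
        left
        refine ⟨_, Z', hZ', ?_⟩
        intro i hi
        rw [Function.update_of_ne (by omega), hx i hi]
      · right
        push Not at hv
        exact ⟨K, x, Z, hK, by omega, hS, hx, hv⟩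
    · exact Or.inr ⟨m, x, Z, h1, by omega, h3⟩

/-- If all but few vertices are adjacent to all but few vertices of `T`, then the star forest is
contained in the graph. -/
lemma near_complete {H : SimpleGraph V} {k h r n b : ℕ} {s : ℕ → ℕ} (E T : Finset V)
    (hn : ∑ i ∈ range k, (s i + 1) = n) (hN : Fintype.card V = n + r) (hr : k ≤ r)
    (hE : E.card ≤ k) (hT : k + 4 * h ≤ T.card)
    (hadj : ∀ v ∉ E, ∃ A : Finset V, A.card ≤ h ∧ ∀ t ∈ T, ¬ H.Adj v t → t ∈ A)
    (hb : ∀ i < k, s i ≤ b) (hb' : 4 * (h * b) + 8 * k ≤ 3 * (n + r)) :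
    (starForest k s).IsContained H := by
  classical
  rcases Nat.eq_zero_or_pos k with hk0 | hk0
  · subst hk0
    exact SimpleGraph.IsContained.of_isEmpty
  set U : Finset V := univ \ E with hU
  have hUc : n + r ≤ U.card + k := by
    have h1 := Finset.le_card_sdiff E univ
    rw [Finset.card_univ, hN] at h1
    rw [hU]
    omega
  have hUN : U.card ≤ n + r := by
    rw [← hN]
    exact Finset.card_le_univ _
  let bad : V → Finset V := fun t => U.filter (fun v => ¬ H.Adj v t)
  let B : Finset V := T.filter (fun t => n + r < 4 * (bad t).card)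
  have hcount : ∑ t ∈ T, (bad t).card ≤ h * (n + r) := by
    have h1 : ∑ t ∈ T, (bad t).card = ∑ v ∈ U, (T.filter (fun t => ¬ H.Adj v t)).card :=
      (Finset.sum_card_bipartiteAbove_eq_sum_card_bipartiteBelow (s := U) (t := T)
        (fun v t => ¬ H.Adj v t)).symm
    rw [h1]
    calc ∑ v ∈ U, (T.filter (fun t => ¬ H.Adj v t)).card ≤ ∑ _v ∈ U, h := by
          apply Finset.sum_le_sum
          intro v hv
          obtain ⟨A, hA, hA'⟩ := hadj v (by simpa [hU] using hv)
          refine (Finset.card_le_card ?_).trans hA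
          intro t ht
          rw [Finset.mem_filter] at ht
          exact hA' t ht.1 ht.2
      _ = h * U.card := by simp [mul_comm]
      _ ≤ h * (n + r) := Nat.mul_le_mul_left _ hUN
  have hBc : B.card ≤ 4 * h := by
    have h1 : B.card * (n + r + 1) ≤ 4 * h * (n + r + 1) := by
      calc B.card * (n + r + 1) = ∑ _t ∈ B, (n + r + 1) := by simp
        _ ≤ ∑ t ∈ B, 4 * (bad t).card := by
          apply Finset.sum_le_sum
          intro t ht
          have := (Finset.mem_filter.1 ht).2
          omega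
        _ ≤ ∑ t ∈ T, 4 * (bad t).card :=
          Finset.sum_le_sum_of_subset (Finset.filter_subset _ _)
        _ = 4 * ∑ t ∈ T, (bad t).card := by rw [Finset.mul_sum]
        _ ≤ 4 * (h * (n + r)) := Nat.mul_le_mul_left _ hcount
        _ ≤ 4 * h * (n + r + 1) := by
          rw [← mul_assoc]
          exact Nat.mul_le_mul_left _ (Nat.le_succ _)
    exact Nat.le_of_mul_le_mul_right h1 (Nat.succ_pos _)
  have hTB : k ≤ (T \ B).card := by
    have := Finset.le_card_sdiff B T
    omega
  obtain ⟨C, hC, hCc⟩ := Finset.exists_subset_card_eq hTB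
  have e : Fin k ≃ C := (Finset.equivFinOfCardEq hCc).symm
  let x : ℕ → V := fun i => if hi : i < k then (e ⟨i, hi⟩ : V) else (e ⟨0, hk0⟩ : V)
  have hx : ∀ i (hi : i < k), x i = e ⟨i, hi⟩ := fun i hi => by simp [x, hi]
  have hxC : ∀ i < k, x i ∈ C := fun i hi => by rw [hx i hi]; exact (e ⟨i, hi⟩).2
  have hinj : ∀ i < k, ∀ j < k, x i = x j → i = j := by
    intro i hi j hj hij
    rw [hx i hi, hx j hj] at hij
    have := e.injective (Subtype.ext hij)
    simpa using this
  set W : Finset V := U \ C with hW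
  have hWc : n + r ≤ W.card + 2 * k := by
    have := Finset.le_card_sdiff C U
    rw [← hW] at this
    omega
  have hsums : ∑ i ∈ range k, s i + k = n := by
    rw [← hn, Finset.sum_add_distrib]
    simp
  refine contained_of_hall (W := W) hinj ?_ ?_
  · intro i hi h
    exact (Finset.mem_sdiff.1 h).2 (hxC i hi)
  · intro I hI
    rcases I.eq_empty_or_nonempty with rfl | ⟨i, hi⟩
    · simp
    by_cases hIh : I.card ≤ h
    · have hik : i < k := Finset.mem_range.1 (hI hi)
      have h1 : ∑ i ∈ I, s i ≤ h * b := by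
        calc ∑ i ∈ I, s i ≤ ∑ _i ∈ I, b :=
              Finset.sum_le_sum (fun j hj => hb j (Finset.mem_range.1 (hI hj)))
          _ = I.card * b := by simp
          _ ≤ h * b := Nat.mul_le_mul_right _ hIh
      have h2 : 4 * (bad (x i)).card ≤ n + r := by
        have h3 := hC (hxC i hik)
        rw [Finset.mem_sdiff, Finset.mem_filter] at h3
        by_contra hcon
        exact h3.2 ⟨h3.1, by omega⟩
      have h4 : (W \ bad (x i)) ⊆ nb H x I ∩ W := by
        intro v hv
        rw [Finset.mem_sdiff] at hv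
        rw [Finset.mem_inter, mem_nb]
        refine ⟨⟨i, hi, ?_⟩, hv.1⟩
        by_contra hna
        apply hv.2
        rw [Finset.mem_filter]
        exact ⟨(Finset.mem_sdiff.1 hv.1).1, fun h => hna h.symm⟩
      have h5 := Finset.card_le_card h4
      have h6 := Finset.le_card_sdiff (bad (x i)) W
      omega
    · have h1 : W ⊆ nb H x I ∩ W := by
        intro v hv
        rw [Finset.mem_inter, mem_nb]
        refine ⟨?_, hv⟩
        by_contra hcon
        push Not at hcon
        have hvE : v ∉ E := by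
          have := (Finset.mem_sdiff.1 hv).1
          rw [hU, Finset.mem_sdiff] at this
          exact this.2
        obtain ⟨A, hA, hA'⟩ := hadj v hvE
        have h2 : I.image x ⊆ A := by
          intro t ht
          obtain ⟨j, hj, rfl⟩ := Finset.mem_image.1 ht
          have hjk := Finset.mem_range.1 (hI hj)
          exact hA' _ (Finset.mem_sdiff.1 (hC (hxC j hjk))).1 (fun h => hcon j hj h.symm)
        have h3 : (I.image x).card = I.card := by
          apply Finset.card_image_of_injOn
          intro a ha b hb hab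
          exact hinj a (Finset.mem_range.1 (hI ha)) b (Finset.mem_range.1 (hI hb)) hab
        have h4 := Finset.card_le_card h2
        omega
      have h5 := Finset.card_le_card h1
      have h6 : ∑ i ∈ I, s i ≤ ∑ i ∈ range k, s i := Finset.sum_le_sum_of_subset hI
      omega

/-- If almost all vertices are adjacent to more than half of `D`, then the greedy procedure can
be continued. -/
lemma exists_next {H : SimpleGraph V} {k a : ℕ} (D E Z X : Finset V) {θ κ : ℝ}
    (hE : E.card ≤ k) (hX : X.card ≤ k)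
    (hD : ∀ v ∉ E, (1 - θ) * (D.card : ℝ) ≤ ((nbv H v ∩ D).card : ℝ))
    (hDk : (k : ℝ) ≤ κ * D.card) (hZk : (k : ℝ) ≤ κ * Z.card) (hD0 : 0 < D.card)
    (hZ0 : 0 < Z.card) (hθ0 : 0 ≤ θ) (hκ0 : 0 ≤ κ) (hκ1 : κ < 1)
    (hκ : θ < (1 - κ) * (1 - θ - κ)) (ha : (a : ℝ) ≤ θ * Z.card) :
    ∃ v, v ∉ X ∧ a ≤ (nbv H v ∩ Z).card := by
  classical
  by_contra hcon
  push Not at hcon
  have hsum : ∑ v ∈ D \ X, (nbv H v ∩ Z).card = ∑ z ∈ Z, (nbv H z ∩ (D \ X)).card := by
    have h1 := Finset.sum_card_bipartiteAbove_eq_sum_card_bipartiteBelow (s := D \ X) (t := Z)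
        (fun v t => H.Adj v t)
    rw [Finset.sum_congr rfl (fun v _ => ?_), h1, Finset.sum_congr rfl (fun v _ => ?_)]
    · congr 1
      ext w
      simp only [Finset.bipartiteBelow, Finset.mem_filter, Finset.mem_inter, mem_nbv]
      exact ⟨fun h => ⟨h.2.symm, h.1⟩, fun h => ⟨h.2, h.1.symm⟩⟩
    · congr 1
      ext w
      simp only [Finset.bipartiteAbove, Finset.mem_filter, Finset.mem_inter, mem_nbv]
      exact and_comm
  have hup : (∑ v ∈ D \ X, (nbv H v ∩ Z).card : ℝ) ≤ (D.card : ℝ) * (θ * Z.card) := by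
    calc (∑ v ∈ D \ X, (nbv H v ∩ Z).card : ℝ) ≤ ∑ _v ∈ D \ X, (θ * Z.card : ℝ) := by
          apply Finset.sum_le_sum
          intro v hv
          have h1 := hcon v (Finset.mem_sdiff.1 hv).2
          have h2 : ((nbv H v ∩ Z).card : ℝ) ≤ a := by exact_mod_cast h1.le
          exact h2.trans ha
      _ = ((D \ X).card : ℝ) * (θ * Z.card) := by simp
      _ ≤ (D.card : ℝ) * (θ * Z.card) := by
          apply mul_le_mul_of_nonneg_right
          · exact_mod_cast Finset.card_le_card Finset.sdiff_subset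
          · positivity
  have hlo : ((Z.card : ℝ) - k) * ((1 - θ) * D.card - k) ≤
      (∑ z ∈ Z, (nbv H z ∩ (D \ X)).card : ℝ) := by
    have hnn : 0 ≤ (1 - θ) * (D.card : ℝ) - k := by
      have h1 : 0 < 1 - κ := by linarith
      have h2 : 0 < 1 - θ - κ := by
        by_contra h
        push Not at h
        nlinarith
      have h3 : (0 : ℝ) < D.card := by exact_mod_cast hD0
      nlinarith
    calc ((Z.card : ℝ) - k) * ((1 - θ) * D.card - k)
        ≤ ((Z \ E).card : ℝ) * ((1 - θ) * D.card - k) := by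
          apply mul_le_mul_of_nonneg_right _ hnn
          have h1 := Finset.le_card_sdiff E Z
          have h2 : Z.card ≤ (Z \ E).card + k := by omega
          have h3 : (Z.card : ℝ) ≤ ((Z \ E).card : ℝ) + k := by exact_mod_cast h2
          linarith
      _ = ∑ _z ∈ Z \ E, ((1 - θ) * (D.card : ℝ) - k) := by
          rw [Finset.sum_const, nsmul_eq_mul]
      _ ≤ ∑ z ∈ Z \ E, ((nbv H z ∩ (D \ X)).card : ℝ) := by
          apply Finset.sum_le_sum
          intro z hz
          have h1 := hD z (Finset.mem_sdiff.1 hz).2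
          have h2 : nbv H z ∩ (D \ X) = (nbv H z ∩ D) \ X := by
            ext w
            simp only [Finset.mem_inter, Finset.mem_sdiff]
            tauto
          have h3 := Finset.le_card_sdiff X (nbv H z ∩ D)
          have h4 : (nbv H z ∩ D).card ≤ (nbv H z ∩ (D \ X)).card + k := by
            rw [h2]
            omega
          have h5 : ((nbv H z ∩ D).card : ℝ) ≤ ((nbv H z ∩ (D \ X)).card : ℝ) + k := by
            exact_mod_cast h4
          linarith
      _ ≤ ∑ z ∈ Z, ((nbv H z ∩ (D \ X)).card : ℝ) := by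
          apply Finset.sum_le_sum_of_subset_of_nonneg Finset.sdiff_subset
          intro i _ _
          positivity
  have hsum' : (∑ v ∈ D \ X, (nbv H v ∩ Z).card : ℝ) = ∑ z ∈ Z, ((nbv H z ∩ (D \ X)).card : ℝ) := by
    exact_mod_cast hsum
  rw [← hsum'] at hlo
  have h1 := hlo.trans hup
  have hDp : (0 : ℝ) < D.card := by exact_mod_cast hD0
  have hZp : (0 : ℝ) < Z.card := by exact_mod_cast hZ0
  have h2 : (1 - κ) * (Z.card : ℝ) ≤ (Z.card : ℝ) - k := by nlinarith
  have h3 : (1 - θ - κ) * (D.card : ℝ) ≤ (1 - θ) * D.card - k := by nlinarith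
  have h4 : 0 < 1 - κ := by linarith
  have h5 : 0 < 1 - θ - κ := by
    by_contra h
    push Not at h
    nlinarith
  have h6 : ((1 - κ) * (Z.card : ℝ)) * ((1 - θ - κ) * (D.card : ℝ)) ≤
      ((Z.card : ℝ) - k) * ((1 - θ) * D.card - k) := by
    apply mul_le_mul h2 h3 (by positivity)
    have : 0 ≤ (1 - κ) * (Z.card : ℝ) := by positivity
    linarith
  have h7 : θ * ((Z.card : ℝ) * D.card) < ((1 - κ) * (1 - θ - κ)) * ((Z.card : ℝ) * D.card) :=
    mul_lt_mul_of_pos_right hκ (by positivity)
  nlinarith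

/-- The second phase of the greedy procedure. -/
lemma medium {H : SimpleGraph V} {k K h r n b : ℕ} {s : ℕ → ℕ} {x₀ : ℕ → V} {Z₀ : Finset V}
    (S : State H s univ k K x₀ Z₀) (hKk : K ≤ k)
    (hn : ∑ i ∈ range k, (s i + 1) = n) (hN : Fintype.card V = n + r) (hr : k + 4 * h ≤ r)
    (hmed : ∀ m, K ≤ m → m < k → s m + (k - K) ≤ h)
    (hb : ∀ i < k, s i ≤ b) (hb' : 4 * (h * b) + 8 * k ≤ 3 * (n + r)) :
    (starForest k s).IsContained H ∨ (starForest k s).IsContained Hᶜ := by
  classical
  obtain ⟨Z', S'⟩ := S.transition (τ := k - K) (by omega)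
  set Ω : Finset V := univ \ (range K).image x₀ with hΩ
  have hsums : ∑ i ∈ range k, s i + k = n := by
    rw [← hn, Finset.sum_add_distrib]
    simp
  rcases run S' k hKk with ⟨x, Z, hS, hx⟩ | ⟨m, x, Z, hKm, hmk, hS, hx, hst⟩
  · left
    refine contained_of_hall (W := univ \ (range k).image x) hS.inj ?_ ?_
    · intro i hi hcon
      exact (Finset.mem_sdiff.1 hcon).2 (Finset.mem_image_of_mem _ (Finset.mem_range.2 hi))
    · intro I hI
      rcases I.eq_empty_or_nonempty with rfl | hne
      · simp
      have h1 := hS.spare I hI hne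
      have h2 : (nb H x I ∩ Ω) \ (Finset.Ico K k).image x ⊆
          nb H x I ∩ (univ \ (range k).image x) := by
        intro v hv
        rw [Finset.mem_sdiff, Finset.mem_inter] at hv
        rw [Finset.mem_inter, Finset.mem_sdiff]
        refine ⟨hv.1.1, Finset.mem_univ _, ?_⟩
        intro hcon
        obtain ⟨i, hi, rfl⟩ := Finset.mem_image.1 hcon
        have hi' := Finset.mem_range.1 hi
        by_cases hiK : i < K
        · apply (Finset.mem_sdiff.1 hv.1.2).2
          rw [hx i hiK]
          exact Finset.mem_image_of_mem _ (Finset.mem_range.2 hiK)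
        · apply hv.2
          exact Finset.mem_image_of_mem _ (Finset.mem_Ico.2 ⟨by omega, hi'⟩)
      have h3 := Finset.card_le_card h2
      have h4 := Finset.le_card_sdiff ((Finset.Ico K k).image x) (nb H x I ∩ Ω)
      have h5 : ((Finset.Ico K k).image x).card ≤ k - K := by
        simpa using Finset.card_image_le (s := Finset.Ico K k) (f := x)
      omega
  · right
    have hEc : ((range m).image x).card ≤ m := by
      simpa using Finset.card_image_le (s := range m) (f := x)
    refine near_complete (h := h) (r := r) (n := n) (b := b) ((range m).image x) Z hn hN (by omega)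
      (by omega) ?_ ?_ hb hb'
    · have h1 := hS.card
      have h2 : ∑ j ∈ range m, s j ≤ ∑ j ∈ range k, s j :=
        Finset.sum_le_sum_of_subset (Finset.range_mono hmk.le)
      have h3 : n + r ≤ Ω.card + K := by
        have h4 := Finset.le_card_sdiff ((range K).image x₀) univ
        have h5 : ((range K).image x₀).card ≤ K := by
          simpa using Finset.card_image_le (s := range K) (f := x₀)
        rw [Finset.card_univ, hN, ← hΩ] at h4
        omega
      omega
    · intro v hv
      have h1 : ∀ i < m, x i ≠ v := by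
        intro i hi hcon
        exact hv (Finset.mem_image.2 ⟨i, Finset.mem_range.2 hi, hcon⟩)
      have h2 := hst v h1
      have h3 := hmed m hKm hmk
      refine ⟨insert v (nbv H v ∩ Z), ?_, ?_⟩
      · have := Finset.card_insert_le v (nbv H v ∩ Z)
        omega
      · intro t ht hna
        rw [Finset.mem_insert]
        by_cases hvt : t = v
        · exact Or.inl hvt
        · right
          rw [Finset.mem_inter, mem_nbv]
          refine ⟨?_, ht⟩
          by_contra hcon
          exact hna ((SimpleGraph.compl_adj _ _ _).2 ⟨fun h => hvt h.symm, hcon⟩)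

/-- **The combinatorial theorem**: under suitable conditions on the sizes, every two-colouring of
the complete graph on `n + r` vertices contains a monochromatic copy of the star forest. -/
theorem mono_starForest {k K h r n b : ℕ} {s : ℕ → ℕ} {θ κ : ℝ} (hKk : K ≤ k)
    (hn : ∑ i ∈ range k, (s i + 1) = n) (hN : Fintype.card V = n + r) (hr : k + 4 * h ≤ r)
    (hmed : ∀ m, K ≤ m → m < k → s m + (k - K) ≤ h)
    (hb : ∀ i < k, s i ≤ b) (hb' : 4 * (h * b) + 8 * k ≤ 3 * (n + r))
    (hmain : ∀ m < K, ((s m + k : ℕ) : ℝ) ≤ θ * ((∑ i ∈ Finset.Ico m k, (s i + 1) : ℕ) : ℝ) ∧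
      (k : ℝ) ≤ κ * ((∑ i ∈ Finset.Ico m k, (s i + 1) : ℕ) : ℝ))
    (hθ0 : 0 ≤ θ) (hκ0 : 0 ≤ κ) (hκ1 : κ < 1) (hκ : θ < (1 - κ) * (1 - θ - κ))
    (H : SimpleGraph V) :
    (starForest k s).IsContained H ∨ (starForest k s).IsContained Hᶜ := by
  classical
  have hsums : ∑ i ∈ range k, s i + k = n := by
    rw [← hn, Finset.sum_add_distrib]
    simp
  -- sizes of the sets `Z`
  have hZ : ∀ (G : SimpleGraph V) (m : ℕ) (x : ℕ → V) (Z : Finset V), m < K →
      State G s univ k m x Z → (∑ i ∈ Finset.Ico m k, (s i + 1)) ≤ Z.card ∧ 0 < Z.card := by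
    intro G m x Z hm hS
    have h1 := hS.card
    rw [Finset.card_univ, hN] at h1
    have h2 : ∑ i ∈ range m, (s i + 1) + ∑ i ∈ Finset.Ico m k, (s i + 1) = n := by
      rw [← hn]
      exact Finset.sum_range_add_sum_Ico _ (by omega)
    have h3 : ∑ i ∈ range m, (s i + 1) = ∑ i ∈ range m, s i + m := by
      rw [Finset.sum_add_distrib]
      simp
    omega
  by_cases hV : Nonempty V
  swap
  · have : k = 0 := by
      have h1 : Fintype.card V = 0 := Fintype.card_eq_zero_iff.2 (not_nonempty_iff.1 hV)
      omega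
    subst this
    exact Or.inl (SimpleGraph.IsContained.of_isEmpty)
  obtain ⟨v₀⟩ := hV
  rcases run (State.zero H s univ k (fun _ => v₀)) K (Nat.zero_le _) with
    ⟨x, Z, hS, _⟩ | ⟨m, x, Z, _, hmK, hS, _, hst⟩
  · exact medium hS hKk hn hN hr hmed hb hb'
  · -- the colour `H` is stuck: then `Z` is a good set for the other colour
    set E : Finset V := (range m).image x with hE
    have hEc : E.card ≤ k := by
      have : ((range m).image x).card ≤ m := by
        simpa using Finset.card_image_le (s := range m) (f := x)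
      rw [← hE] at this
      omega
    obtain ⟨hZ1, hZ0⟩ := hZ H m x Z hmK hS
    have hZ1' : ((∑ i ∈ Finset.Ico m k, (s i + 1) : ℕ) : ℝ) ≤ (Z.card : ℝ) := by
      exact_mod_cast hZ1
    have hD : ∀ v ∉ E, (1 - θ) * (Z.card : ℝ) ≤ ((nbv Hᶜ v ∩ Z).card : ℝ) := by
      intro v hv
      have h1 : ∀ i < m, x i ≠ v := by
        intro i hi hcon
        exact hv (Finset.mem_image.2 ⟨i, Finset.mem_range.2 hi, hcon⟩)
      have h2 := hst v h1
      have h3 : Z ⊆ insert v (nbv H v ∩ Z) ∪ (nbv Hᶜ v ∩ Z) := by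
        intro t ht
        rw [Finset.mem_union, Finset.mem_insert, Finset.mem_inter, Finset.mem_inter, mem_nbv,
          mem_nbv]
        by_cases hvt : t = v
        · exact Or.inl (Or.inl hvt)
        · by_cases hadj : H.Adj v t
          · exact Or.inl (Or.inr ⟨hadj, ht⟩)
          · exact Or.inr ⟨(SimpleGraph.compl_adj _ _ _).2 ⟨fun h => hvt h.symm, hadj⟩, ht⟩
      have h4 := Finset.card_le_card h3
      have h5 := Finset.card_union_le (insert v (nbv H v ∩ Z)) (nbv Hᶜ v ∩ Z)
      have h6 := Finset.card_insert_le v (nbv H v ∩ Z)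
      have h7 : Z.card ≤ (s m + k) + (nbv Hᶜ v ∩ Z).card := by omega
      have h8 : (Z.card : ℝ) ≤ ((s m + k : ℕ) : ℝ) + ((nbv Hᶜ v ∩ Z).card : ℝ) := by
        exact_mod_cast h7
      have h9 := (hmain m hmK).1
      have h10 : θ * ((∑ i ∈ Finset.Ico m k, (s i + 1) : ℕ) : ℝ) ≤ θ * (Z.card : ℝ) :=
        mul_le_mul_of_nonneg_left hZ1' hθ0
      linarith
    have hDk : (k : ℝ) ≤ κ * Z.card :=
      (hmain m hmK).2.trans (mul_le_mul_of_nonneg_left hZ1' hκ0)
    rcases run (State.zero Hᶜ s univ k (fun _ => v₀)) K (Nat.zero_le _) with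
      ⟨x', Z', hS', _⟩ | ⟨m', x', Z', _, hmK', hS', _, hst'⟩
    · have := medium hS' hKk hn hN hr hmed hb hb'
      rw [compl_compl] at this
      exact this.symm
    · exfalso
      obtain ⟨hZ1'', hZ0'⟩ := hZ Hᶜ m' x' Z' hmK' hS'
      have hZ2 : ((∑ i ∈ Finset.Ico m' k, (s i + 1) : ℕ) : ℝ) ≤ (Z'.card : ℝ) := by
        exact_mod_cast hZ1''
      have hXc : ((range m').image x').card ≤ k := by
        have : ((range m').image x').card ≤ m' := by
          simpa using Finset.card_image_le (s := range m') (f := x')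
        omega
      obtain ⟨v, hv, hv'⟩ := exists_next (H := Hᶜ) (k := k) (a := s m' + k) Z E Z'
        ((range m').image x') hEc hXc hD hDk
        ((hmain m' hmK').2.trans (mul_le_mul_of_nonneg_left hZ2 hκ0)) hZ0 hZ0' hθ0 hκ0 hκ1 hκ
        ((hmain m' hmK').1.trans (mul_le_mul_of_nonneg_left hZ2 hθ0))
      have h1 : ∀ i < m', x' i ≠ v := by
        intro i hi hcon
        exact hv (Finset.mem_image.2 ⟨i, Finset.mem_range.2 hi, hcon⟩)
      have := hst' v h1
      omega

end

end Pool.Agent.J6H57.MinRamsey
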