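import Pool.Agent.J6H57.MinRamsey.Greedy

/-!
# The sizes of the stars
-/

set_option linter.unusedSectionVars false

namespace Pool.Agent.J6H57.MinRamsey

open Finset

/-- The number of vertices of the next star if `ρ` vertices remain. -/
def tstep (B p ρ : ℕ) : ℕ := min B ((p - 2) * ρ / (2 * p))

/-- The numbers of remaining vertices in the first phase. -/
def seqA (B p n : ℕ) : ℕ → ℕ
  | 0 => n
  | i + 1 => seqA B p n i - tstep B p (seqA B p n i)

lemma tstep_two_le {B p ρ : ℕ} (hB : 2 ≤ B) (hp : 10 ≤ p) (hρ : 4 * p ≤ ρ) :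
    2 ≤ tstep B p ρ := by
  unfold tstep
  refine le_min hB ?_
  rw [Nat.le_div_iff_mul_le (by omega)]
  calc 2 * (2 * p) ≤ 2 * p * 8 := by omega
    _ ≤ 2 * p * (p - 2) := Nat.mul_le_mul_left _ (by omega)
    _ ≤ ρ * (p - 2) := Nat.mul_le_mul_right _ (by omega)
    _ = (p - 2) * ρ := mul_comm _ _

lemma tstep_real {B p ρ : ℕ} (hp : 10 ≤ p) :
    (tstep B p ρ : ℝ) ≤ (1 / 2 - 1 / p) * ρ := by
  have h1 : tstep B p ρ ≤ (p - 2) * ρ / (2 * p) := min_le_right _ _
  have h2 : ((tstep B p ρ : ℕ) : ℝ) ≤ (((p - 2) * ρ / (2 * p) : ℕ) : ℝ) := by exact_mod_cast h1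
  refine h2.trans (Nat.cast_div_le.trans ?_)
  push_cast [Nat.cast_sub (show 2 ≤ p by omega)]
  have hp' : (0 : ℝ) < p := by positivity
  rw [div_le_iff₀ (by positivity)]
  have : (1 / 2 - 1 / (p : ℝ)) * ρ * (2 * p) = ((p : ℝ) - 2) * ρ := by
    field_simp
  rw [this]

lemma tstep_half {B p ρ : ℕ} (hp : 10 ≤ p) : 2 * tstep B p ρ ≤ ρ := by
  have h1 := tstep_real (B := B) (ρ := ρ) hp
  have hp' : (0 : ℝ) < p := by positivity
  have h2 : (1 / 2 - 1 / (p : ℝ)) * ρ ≤ 1 / 2 * ρ := by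
    apply mul_le_mul_of_nonneg_right _ (Nat.cast_nonneg _)
    have : 0 < 1 / (p : ℝ) := by positivity
    linarith
  have h3 : (2 * tstep B p ρ : ℝ) ≤ ρ := by linarith
  exact_mod_cast h3

/-- The potential decreases by at least one in every step. -/
lemma potential_step {B p ρ : ℕ} (hB : 2 ≤ B) (hp : 10 ≤ p) (hρ : 4 * p ≤ ρ) :
    (((ρ - tstep B p ρ : ℕ) : ℝ) / B +
      Real.log ((ρ - tstep B p ρ : ℕ) : ℝ) / (-Real.log (1 / 2 + 2 / p))) + 1 ≤
    (ρ : ℝ) / B + Real.log ρ / (-Real.log (1 / 2 + 2 / p)) := by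
  have hp' : (0 : ℝ) < p := by positivity
  have hp10 : (10 : ℝ) ≤ p := by exact_mod_cast hp
  have hB' : (0 : ℝ) < B := by positivity
  have hγ1 : (1 / 2 + 2 / (p : ℝ)) < 1 := by
    have : 2 / (p : ℝ) ≤ 2 / 10 := by
      apply div_le_div_of_nonneg_left <;> linarith
    linarith
  have hγ0 : 0 < (1 / 2 + 2 / (p : ℝ)) := by positivity
  have hlog : 0 < -Real.log (1 / 2 + 2 / (p : ℝ)) := by
    have := Real.log_neg hγ0 hγ1
    linarith
  have hhalf := tstep_half (B := B) (ρ := ρ) hp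
  have hρ1 : 1 ≤ ρ - tstep B p ρ := by omega
  have hρ1' : (1 : ℝ) ≤ ((ρ - tstep B p ρ : ℕ) : ℝ) := by exact_mod_cast hρ1
  have hle : ((ρ - tstep B p ρ : ℕ) : ℝ) ≤ (ρ : ℝ) := by exact_mod_cast Nat.sub_le _ _
  have hcast : ((ρ - tstep B p ρ : ℕ) : ℝ) = (ρ : ℝ) - tstep B p ρ := by
    rw [Nat.cast_sub (by omega)]
  rcases le_total B ((p - 2) * ρ / (2 * p)) with h | h
  · have ht : tstep B p ρ = B := min_eq_left h
    have h1 : ((ρ - tstep B p ρ : ℕ) : ℝ) / B + 1 = (ρ : ℝ) / B := by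
      rw [hcast, ht]
      field_simp
      ring
    have h2 : Real.log ((ρ - tstep B p ρ : ℕ) : ℝ) ≤ Real.log ρ :=
      Real.log_le_log (by linarith) hle
    have h3 := div_le_div_of_nonneg_right h2 hlog.le
    linarith
  · have ht : tstep B p ρ = (p - 2) * ρ / (2 * p) := min_eq_right h
    have h1 : ((ρ - tstep B p ρ : ℕ) : ℝ) / B ≤ (ρ : ℝ) / B :=
      div_le_div_of_nonneg_right hle hB'.le
    have h2 : ((ρ - tstep B p ρ : ℕ) : ℝ) ≤ (1 / 2 + 2 / (p : ℝ)) * ρ := by
      have h3 : (p - 2) * ρ < (tstep B p ρ + 1) * (2 * p) := by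
        rw [ht]
        exact (Nat.div_lt_iff_lt_mul (by omega)).1 (Nat.lt_succ_self _)
      have h4 : ((p : ℝ) - 2) * ρ ≤ ((tstep B p ρ : ℝ) + 1) * (2 * p) := by
        have h5 : (((p - 2) * ρ : ℕ) : ℝ) ≤ (((tstep B p ρ + 1) * (2 * p) : ℕ) : ℝ) := by
          exact_mod_cast h3.le
        push_cast [Nat.cast_sub (show 2 ≤ p by omega)] at h5
        exact h5
      have h6 : (1 / 2 - 1 / (p : ℝ)) * ρ ≤ (tstep B p ρ : ℝ) + 1 := by
        have h7 : (1 / 2 - 1 / (p : ℝ)) * ρ = ((p : ℝ) - 2) * ρ / (2 * p) := by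
          field_simp
        rw [h7, div_le_iff₀ (by positivity)]
        exact h4
      have h8 : 1 ≤ 1 / (p : ℝ) * ρ := by
        rw [one_div, inv_mul_eq_div, le_div_iff₀ hp']
        have : (4 * p : ℝ) ≤ ρ := by exact_mod_cast hρ
        linarith
      rw [hcast]
      have h9 : (1 / 2 + 2 / (p : ℝ)) * ρ = (ρ : ℝ) - (1 / 2 - 1 / (p : ℝ)) * ρ + 1 / (p : ℝ) * ρ := by
        ring
      rw [h9]
      linarith
    have hρ0 : (0 : ℝ) < ρ := by
      have : (4 * p : ℝ) ≤ ρ := by exact_mod_cast hρ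
      linarith
    have h3 : Real.log ((ρ - tstep B p ρ : ℕ) : ℝ) ≤ Real.log (1 / 2 + 2 / (p : ℝ)) + Real.log ρ := by
      rw [← Real.log_mul hγ0.ne' hρ0.ne']
      exact Real.log_le_log (by linarith) h2
    have h4 : Real.log ((ρ - tstep B p ρ : ℕ) : ℝ) / (-Real.log (1 / 2 + 2 / (p : ℝ))) + 1 ≤
        Real.log ρ / (-Real.log (1 / 2 + 2 / (p : ℝ))) := by
      rw [div_add_one hlog.ne']
      apply div_le_div_of_nonneg_right _ hlog.le
      linarith
    linarith

lemma seqA_decreasing {B p n Θ : ℕ} (hB : 2 ≤ B) (hp : 10 ≤ p) (hΘ : 4 * p ≤ Θ) {i : ℕ}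
    (h : ∀ j < i, Θ ≤ seqA B p n j) : seqA B p n i + i ≤ n := by
  induction i with
  | zero => simp [seqA]
  | succ i ih =>
    have h1 := ih (fun j hj => h j (by omega))
    have h2 := h i (by omega)
    have h3 := tstep_two_le hB hp (show 4 * p ≤ seqA B p n i by omega)
    have h4 := tstep_half (B := B) (ρ := seqA B p n i) hp
    have h5 : seqA B p n (i + 1) = seqA B p n i - tstep B p (seqA B p n i) := rfl
    omega

lemma exists_seqA_lt {B p n Θ : ℕ} (hB : 2 ≤ B) (hp : 10 ≤ p) (hΘ : 4 * p ≤ Θ) :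
    ∃ i, seqA B p n i < Θ := by
  by_contra hcon
  push Not at hcon
  have h1 := seqA_decreasing hB hp hΘ (i := n + 1) (n := n) (fun j _ => hcon j)
  omega

/-- The telescoping sum. -/
lemma sum_telescope {ρ s : ℕ → ℕ} {k : ℕ} (h : ∀ i < k, ρ (i + 1) + (s i + 1) = ρ i) {m : ℕ}
    (hm : m ≤ k) : ∑ i ∈ Finset.Ico m k, (s i + 1) + ρ k = ρ m := by
  induction k, hm using Nat.le_induction with
  | base => simp
  | succ k hk ih =>
    rw [Finset.sum_Ico_succ_top (by omega)]
    have h1 := ih (fun i hi => h i (by omega))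
    have h2 := h k (by omega)
    omega

/-- The sizes of the stars: `K` stars in the first phase, and then `seqA K / q` stars with
between `q` and `2 q - 1` vertices. -/
lemma exists_sizes_aux {B p n Θ q : ℕ} (hB : 2 * q ≤ B) (hp : 10 ≤ p) (hΘ : 4 * p ≤ Θ)
    (hq : 2 ≤ q) (hqΘ : 2 * q ≤ Θ) (hΘn : Θ ≤ n) :
    ∃ (K k : ℕ) (s : ℕ → ℕ), K ≤ k ∧ k ≤ K + Θ / q ∧ ∑ i ∈ range k, (s i + 1) = n ∧
      (∀ i < k, 1 ≤ s i) ∧ (∀ i < k, s i ≤ B) ∧ (∀ m, K ≤ m → m < k → s m ≤ 2 * q) ∧
      (∀ m < K, Θ ≤ ∑ i ∈ Finset.Ico m k, (s i + 1) ∧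
        ((s m + 1 : ℕ) : ℝ) ≤ (1 / 2 - 1 / p) * ((∑ i ∈ Finset.Ico m k, (s i + 1) : ℕ) : ℝ)) ∧
      (K : ℝ) ≤ (n : ℝ) / B + Real.log n / (-Real.log (1 / 2 + 2 / p)) := by
  classical
  have hB2 : 2 ≤ B := by omega
  have hex := exists_seqA_lt (n := n) hB2 hp hΘ
  set K := Nat.find hex with hK
  have hKlt : seqA B p n K < Θ := Nat.find_spec hex
  have hKmin : ∀ j < K, Θ ≤ seqA B p n j := fun j hj => not_lt.1 (Nat.find_min hex hj)
  set a := seqA B p n with ha
  have hsucc : ∀ i, a (i + 1) = a i - tstep B p (a i) := fun i => rfl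
  have hKpos : 0 < K := by
    rcases Nat.eq_zero_or_pos K with h | h
    · rw [h] at hKlt
      have : a 0 = n := rfl
      omega
    · exact h
  -- the last value is at least `Θ / 2`
  have hKlow : Θ ≤ 2 * a K := by
    have h1 := hKmin (K - 1) (by omega)
    have h2 := hsucc (K - 1)
    rw [Nat.sub_add_cancel hKpos] at h2
    have h3 := tstep_half (B := B) (ρ := a (K - 1)) hp
    omega
  have hqK : q ≤ a K := by omega
  set M := a K / q with hM
  have hM1 : 1 ≤ M := (Nat.one_le_div_iff (by omega)).2 hqK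
  have hMq : M * q ≤ a K := Nat.div_mul_le_self _ _
  have hMq' : a K < (M + 1) * q := (Nat.div_lt_iff_lt_mul (by omega)).1 (Nat.lt_succ_self _)
  have hMΘ : M ≤ Θ / q := Nat.div_le_div_right hKlt.le
  -- potential bound
  have hpot : ∀ i ≤ K, (i : ℝ) + ((a i : ℝ) / B + Real.log (a i) / (-Real.log (1 / 2 + 2 / p))) ≤
      (n : ℝ) / B + Real.log n / (-Real.log (1 / 2 + 2 / p)) := by
    intro i
    induction i with
    | zero =>
      intro _
      have : a 0 = n := rfl
      rw [this]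
      simp
    | succ i ih =>
      intro hi
      have h1 := ih (by omega)
      have h2 := potential_step (B := B) (ρ := a i) hB2 hp (by have := hKmin i (by omega); omega)
      rw [← hsucc] at h2
      push_cast
      linarith
  have hKbound : (K : ℝ) ≤ (n : ℝ) / B + Real.log n / (-Real.log (1 / 2 + 2 / p)) := by
    have h1 := hpot K le_rfl
    have h2 : 0 ≤ (a K : ℝ) / B := by positivity
    have h3 : 0 ≤ Real.log (a K) / (-Real.log (1 / 2 + 2 / (p : ℝ))) := by
      apply div_nonneg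
      · apply Real.log_nonneg
        have : 1 ≤ a K := by omega
        exact_mod_cast this
      · have hp10 : (10 : ℝ) ≤ p := by exact_mod_cast hp
        have h4 : 2 / (p : ℝ) ≤ 2 / 10 := by
          apply div_le_div_of_nonneg_left <;> linarith
        have h5 : Real.log (1 / 2 + 2 / (p : ℝ)) ≤ 0 := by
          apply Real.log_nonpos <;> [positivity; linarith]
        linarith
    linarith
  -- the sequence of remaining vertices
  let ρ : ℕ → ℕ := fun i => if i ≤ K then a i else if i < K + M then a K - (i - K) * q else 0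
  let s : ℕ → ℕ := fun i => ρ i - ρ (i + 1) - 1
  have hρ1 : ∀ i ≤ K, ρ i = a i := fun i hi => by simp [ρ, hi]
  have hρ2 : ∀ i, K ≤ i → i < K + M → ρ i = a K - (i - K) * q := by
    intro i hi hi'
    by_cases h : i = K
    · subst h
      simp [ρ]
    · have : ¬ i ≤ K := by omega
      simp [ρ, this, hi']
  have hρ3 : ρ (K + M) = 0 := by
    have : ¬ (K + M ≤ K) := by omega
    simp [ρ]
    omega
  -- the differences in the first phase
  have hd1 : ∀ i < K, ρ i - ρ (i + 1) = tstep B p (a i) ∧ tstep B p (a i) ≤ ρ i ∧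
      2 ≤ tstep B p (a i) := by
    intro i hi
    rw [hρ1 i (by omega), hρ1 (i + 1) (by omega), hsucc]
    have h1 := tstep_half (B := B) (ρ := a i) hp
    have h2 := hKmin i hi
    have h3 := tstep_two_le hB2 hp (show 4 * p ≤ a i by omega)
    omega
  have hle1 : ∀ i < K, ρ (i + 1) ≤ ρ i := by
    intro i hi
    rw [hρ1 i (by omega), hρ1 (i + 1) (by omega), hsucc]
    exact Nat.sub_le _ _
  -- the differences in the second phase
  have hd2 : ∀ i, K ≤ i → i < K + M → ρ (i + 1) ≤ ρ i ∧ q ≤ ρ i - ρ (i + 1) ∧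
      ρ i - ρ (i + 1) ≤ 2 * q := by
    intro i hi hi'
    obtain ⟨j, rfl⟩ := Nat.exists_eq_add_of_le hi
    have hj : j < M := by omega
    rw [hρ2 (K + j) (by omega) hi']
    have e1 : K + j - K = j := by omega
    rw [e1]
    have h1 : (j + 1) * q ≤ a K := (Nat.mul_le_mul_right q (by omega)).trans hMq
    have h2 : (j + 1) * q = j * q + q := by ring
    by_cases hlast : j + 1 = M
    · have e2 : K + j + 1 = K + M := by omega
      rw [e2, hρ3]
      have h3 : (M + 1) * q = j * q + 2 * q := by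
        rw [← hlast]
        ring
      omega
    · rw [hρ2 (K + j + 1) (by omega) (by omega)]
      have e3 : K + j + 1 - K = j + 1 := by omega
      rw [e3]
      omega
  have hs : ∀ i < K + M, ρ (i + 1) + (s i + 1) = ρ i := by
    intro i hi
    have e : s i = ρ i - ρ (i + 1) - 1 := rfl
    by_cases h : i < K
    · have h1 := hd1 i h
      have h2 := hle1 i h
      omega
    · have h1 := hd2 i (by omega) hi
      omega
  have hIco : ∀ m ≤ K + M, ∑ i ∈ Finset.Ico m (K + M), (s i + 1) = ρ m := by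
    intro m hm
    have := sum_telescope hs hm
    rw [hρ3] at this
    omega
  refine ⟨K, K + M, s, by omega, by omega, ?_, ?_, ?_, ?_, ?_, hKbound⟩
  · rw [Finset.range_eq_Ico, hIco 0 (by omega), hρ1 0 (by omega)]
    rfl
  · intro i hi
    have e : s i = ρ i - ρ (i + 1) - 1 := rfl
    by_cases h : i < K
    · have h1 := hd1 i h
      omega
    · have h1 := hd2 i (by omega) hi
      omega
  · intro i hi
    have e : s i = ρ i - ρ (i + 1) - 1 := rfl
    by_cases h : i < K
    · have h1 := hd1 i h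
      have h2 : tstep B p (a i) ≤ B := min_le_left _ _
      omega
    · have h1 := hd2 i (by omega) hi
      omega
  · intro m hm hm'
    have e : s m = ρ m - ρ (m + 1) - 1 := rfl
    have h1 := hd2 m hm hm'
    omega
  · intro m hm
    rw [hIco m (by omega), hρ1 m (by omega)]
    refine ⟨hKmin m hm, ?_⟩
    have e : s m = ρ m - ρ (m + 1) - 1 := rfl
    have h1 := hd1 m hm
    have h2 : s m + 1 = tstep B p (a m) := by omega
    rw [h2]
    exact tstep_real hp

end Pool.Agent.J6H57.MinRamsey
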