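import Pool.Agent.J6H57.MinRamsey.Sizes

/-!
# The upper bound `f(n) ≤ n + (1 + ε) log₂ n`
-/

set_option linter.unusedSectionVars false

namespace Pool.Agent.J6H57.MinRamsey

open Finset Filter

/-- Transport of the star forest to the vertex set `Fin n`. -/
lemma exists_graph_of_starForest {k n N : ℕ} {s : ℕ → ℕ} (hn : ∑ i ∈ range k, (s i + 1) = n)
    (hs : ∀ i < k, 1 ≤ s i) (h : Arrows N (starForest k s)) :
    ∃ G : SimpleGraph (Fin n), (∀ v, ∃ w, G.Adj v w) ∧ Arrows N G := by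
  have hcard : Fintype.card (Σ i : Fin k, Fin (s i + 1)) = n := by
    rw [Fintype.card_sigma, ← hn, ← Fin.sum_univ_eq_sum_range (fun i => s i + 1) k]
    simp
  let e : (Σ i : Fin k, Fin (s i + 1)) ≃ Fin n := Fintype.equivFinOfCardEq hcard
  let φ : starForest k s ≃g (starForest k s).map e.toEmbedding := SimpleGraph.Iso.map e _
  refine ⟨(starForest k s).map e.toEmbedding, ?_, ?_⟩
  · intro v
    obtain ⟨⟨i, a⟩, rfl⟩ := e.surjective v
    have hsi := hs i i.2
    by_cases ha : a.val = 0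
    · refine ⟨e ⟨i, ⟨1, by omega⟩⟩, ?_⟩
      have h1 : (starForest k s).Adj ⟨i, a⟩ ⟨i, ⟨1, by omega⟩⟩ :=
        show (i = i ∧ ((a.val = 0 ∧ (1 : ℕ) ≠ 0) ∨ (a.val ≠ 0 ∧ (1 : ℕ) = 0))) from
          ⟨rfl, Or.inl ⟨ha, one_ne_zero⟩⟩
      exact φ.map_adj_iff.2 h1
    · refine ⟨e ⟨i, ⟨0, by omega⟩⟩, ?_⟩
      have h1 : (starForest k s).Adj ⟨i, a⟩ ⟨i, ⟨0, by omega⟩⟩ :=
        show (i = i ∧ ((a.val = 0 ∧ (0 : ℕ) ≠ 0) ∨ (a.val ≠ 0 ∧ (0 : ℕ) = 0))) from
          ⟨rfl, Or.inr ⟨ha, rfl⟩⟩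
      exact φ.map_adj_iff.2 h1
  · intro R
    rcases h R with h | h
    · exact Or.inl ((SimpleGraph.isContained_congr_left φ).1 h)
    · exact Or.inr ((SimpleGraph.isContained_congr_left φ).1 h)

lemma minRamsey_le {n N : ℕ} {G : SimpleGraph (Fin n)} (hG : ∀ v, ∃ w, G.Adj v w)
    (h : Arrows N G) : minRamsey n ≤ N := by
  have h1 : minRamsey n ≤ ramseyNumber G :=
    Nat.sInf_le (show ramseyNumber G ∈ {m : ℕ | ∃ G : SimpleGraph (Fin n),
      (∀ v, ∃ w, G.Adj v w) ∧ ramseyNumber G = m} from ⟨G, hG, rfl⟩)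
  have h2 : ramseyNumber G ≤ N := Nat.sInf_le (show N ∈ {N : ℕ | Arrows N G} from h)
  exact h1.trans h2

lemma ev_sq (C : ℕ) : ∀ᶠ n : ℕ in atTop, C * (Nat.log 2 n + 1) ^ 2 ≤ n := by
  have h1 := (Real.isLittleO_pow_log_id_atTop (n := 2)).bound
    (show (0 : ℝ) < (Real.log 2) ^ 2 / (4 * (C + 1)) by positivity)
  have h2 := tendsto_natCast_atTop_atTop.eventually h1
  filter_upwards [h2, eventually_ge_atTop 2] with n hn hn2
  have hn2' : (2 : ℝ) ≤ n := by exact_mod_cast hn2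
  have hlog2 : 0 < Real.log 2 := Real.log_pos (by norm_num)
  have hlogn : Real.log 2 ≤ Real.log n := Real.log_le_log (by norm_num) hn2'
  have h3 : (Nat.log 2 n : ℝ) ≤ Real.log n / Real.log 2 := by
    have := Real.natLog_le_logb n 2
    simpa [Real.logb] using this
  have h4 : (1 : ℝ) ≤ Real.log n / Real.log 2 := by
    rw [le_div_iff₀ hlog2]
    linarith
  have h5 : ((Nat.log 2 n : ℝ) + 1) ^ 2 ≤ 4 * (Real.log n / Real.log 2) ^ 2 := by
    have h0 : (0 : ℝ) ≤ (Nat.log 2 n : ℝ) + 1 := by positivity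
    have : (Nat.log 2 n : ℝ) + 1 ≤ 2 * (Real.log n / Real.log 2) := by linarith
    calc ((Nat.log 2 n : ℝ) + 1) ^ 2 ≤ (2 * (Real.log n / Real.log 2)) ^ 2 :=
          pow_le_pow_left₀ h0 this 2
      _ = 4 * (Real.log n / Real.log 2) ^ 2 := by ring
  rw [Real.norm_of_nonneg (by positivity), id, Real.norm_of_nonneg (by positivity)] at hn
  have h6 : (C : ℝ) * ((Nat.log 2 n : ℝ) + 1) ^ 2 ≤ n := by
    calc (C : ℝ) * ((Nat.log 2 n : ℝ) + 1) ^ 2 ≤ (C + 1) * (4 * (Real.log n / Real.log 2) ^ 2) := by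
          apply mul_le_mul (by linarith) h5 (by positivity) (by positivity)
      _ = 4 * (C + 1) / (Real.log 2) ^ 2 * (Real.log n) ^ 2 := by
          field_simp
      _ ≤ 4 * (C + 1) / (Real.log 2) ^ 2 * ((Real.log 2) ^ 2 / (4 * (C + 1)) * n) := by
          apply mul_le_mul_of_nonneg_left hn (by positivity)
      _ = n := by
          field_simp
  exact_mod_cast h6

lemma ev_log (C : ℝ) : ∀ᶠ n : ℕ in atTop, C ≤ Real.logb 2 n :=
  ((Real.tendsto_logb_atTop (by norm_num : (1 : ℝ) < 2)).comp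
    tendsto_natCast_atTop_atTop).eventually_ge_atTop C

lemma exists_p {ε : ℝ} (hε : 0 < ε) : ∃ p : ℕ, 10 ≤ p ∧ 16 / (p : ℝ) ≤ ε / 4 ∧
    Real.log 2 ≤ (1 + ε / 4) * (-Real.log (1 / 2 + 2 / p)) := by
  have h1 : Tendsto (fun p : ℕ => (2 : ℝ) / p) atTop (nhds 0) :=
    tendsto_const_div_atTop_nhds_zero_nat 2
  have h2 : Tendsto (fun p : ℕ => (1 + ε / 4) * (-Real.log (1 / 2 + 2 / (p : ℝ)))) atTop
      (nhds ((1 + ε / 4) * (-Real.log (1 / 2 + 0)))) := by
    apply Tendsto.const_mul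
    apply Tendsto.neg
    apply Tendsto.log _ (by norm_num)
    exact tendsto_const_nhds.add h1
  have h3 : Real.log 2 < (1 + ε / 4) * (-Real.log (1 / 2 + 0)) := by
    have hlog2 : 0 < Real.log 2 := Real.log_pos (by norm_num)
    rw [add_zero, one_div, Real.log_inv, neg_neg]
    nlinarith
  have h4 := h2.eventually (lt_mem_nhds h3)
  have h5 : Tendsto (fun p : ℕ => (16 : ℝ) / p) atTop (nhds 0) :=
    tendsto_const_div_atTop_nhds_zero_nat 16
  have h6 := h5.eventually (ge_mem_nhds (show (0 : ℝ) < ε / 4 by positivity))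
  obtain ⟨p, hp⟩ := (h4.and (h6.and (eventually_ge_atTop 10))).exists
  exact ⟨p, hp.2.2, hp.2.1, hp.1.le⟩

theorem upper_bound {ε : ℝ} (hε : 0 < ε) (hε1 : ε ≤ 1) :
    ∀ᶠ n : ℕ in atTop, (minRamsey n : ℝ) ≤ n + (1 + ε) * Real.logb 2 n := by
  obtain ⟨p, hp, hp16, hplog⟩ := exists_p hε
  have hp0 : (0 : ℝ) < p := by positivity
  filter_upwards [ev_sq (1000 * p ^ 4), ev_log ((1000 * p ^ 2 + 10) / ε + 4 * p + 2),
    eventually_ge_atTop 2] with n hn hlam hn2
  set lam := Real.logb 2 n with hlamdef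
  set L := Nat.log 2 n with hL
  have hn2' : (2 : ℝ) ≤ n := by exact_mod_cast hn2
  have hLlam : (L : ℝ) ≤ lam := Real.natLog_le_logb n 2
  have hlamL : lam < L + 1 := by
    have h1 : n < 2 ^ (L + 1) := Nat.lt_pow_succ_log_self (by norm_num) n
    have h2 : (n : ℝ) < 2 ^ ((L + 1 : ℕ) : ℝ) := by
      rw [Real.rpow_natCast]
      exact_mod_cast h1
    have h3 := (Real.logb_lt_iff_lt_rpow (by norm_num : (1 : ℝ) < 2) (by linarith)).2 h2
    push_cast at h3
    exact h3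
  have hlam1 : (1000 * (p : ℝ) ^ 2 + 10) / ε ≤ lam := by
    have : (0 : ℝ) ≤ 4 * p + 2 := by positivity
    linarith
  have hlam2 : 1000 * (p : ℝ) ^ 2 + 10 ≤ lam := by
    have h1 : 1000 * (p : ℝ) ^ 2 + 10 ≤ (1000 * (p : ℝ) ^ 2 + 10) / ε := by
      rw [le_div_iff₀ hε]
      nlinarith [sq_nonneg (p : ℝ)]
    linarith
  have hlam3 : 1000 * (p : ℝ) ^ 2 + 10 ≤ ε * lam := by
    rw [div_le_iff₀ hε] at hlam1
    linarith
  have hLbig : 1000 * p ^ 2 + 9 ≤ L := by
    have h1 : (1000 * (p : ℝ) ^ 2 + 10) < (L : ℝ) + 1 := by linarith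
    have h2 : 1000 * p ^ 2 + 10 < L + 1 := by exact_mod_cast h1
    omega
  have hpp : p ≤ p ^ 2 := by nlinarith
  -- parameters
  set q := L / p with hq
  set Θ := 8 * p * L with hΘ
  set h := 2 * q + 16 * p ^ 2 with hh
  set B := n / (2 * h) with hB
  have hqL : q ≤ L := Nat.div_le_self _ _
  have hq2 : L ≤ 2 * p * q := by
    have h1 : L < (q + 1) * p := (Nat.div_lt_iff_lt_mul (by omega)).1 (Nat.lt_succ_self _)
    have h2 : (q + 1) * p = p * q + p := by ring
    have h3 : 2 * p * q = p * q + p * q := by ring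
    have h4 : 2 * p ≤ L := by omega
    omega
  have hq1 : 2 ≤ q := by
    rw [hq, Nat.le_div_iff_mul_le (by omega)]
    omega
  have hΘq : Θ / q ≤ 16 * p ^ 2 := by
    apply Nat.div_le_of_le_mul
    calc 8 * p * L ≤ 8 * p * (2 * p * q) := Nat.mul_le_mul_left _ hq2
      _ = q * (16 * p ^ 2) := by ring
  have hsq : 1000 * p ^ 4 * (L + 1) ^ 2 ≤ n := hn
  have hp4 : 1 ≤ p ^ 4 := Nat.one_le_pow _ _ (by omega)
  have hhL : h ≤ 3 * L := by omega
  have hLL : (L + 1) ^ 2 = L * L + 2 * L + 1 := by ring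
  have hnL : 1000 * (L * L + 2 * L + 1) ≤ n := by
    calc 1000 * (L * L + 2 * L + 1) = 1000 * 1 * (L + 1) ^ 2 := by rw [hLL]
      _ ≤ 1000 * p ^ 4 * (L + 1) ^ 2 :=
          Nat.mul_le_mul_right _ (Nat.mul_le_mul_left _ hp4)
      _ ≤ n := hsq
  have hnpL : 8 * p * L ≤ n := by
    have h1 : p ≤ p ^ 4 := by
      calc p = p ^ 1 := (pow_one p).symm
        _ ≤ p ^ 4 := Nat.pow_le_pow_right (by omega) (by norm_num)
    have h2 : L ≤ (L + 1) ^ 2 := by nlinarith
    calc 8 * p * L ≤ 1000 * p ^ 4 * (L + 1) ^ 2 :=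
          Nat.mul_le_mul (Nat.mul_le_mul (by norm_num) h1) h2
      _ ≤ n := hsq
  have hh0 : 0 < 2 * h := by omega
  have hBq : 2 * q ≤ B := by
    rw [hB, Nat.le_div_iff_mul_le hh0]
    calc 2 * q * (2 * h) ≤ 2 * L * (2 * (3 * L)) :=
          Nat.mul_le_mul (by omega) (by omega)
      _ = 12 * (L * L) := by ring
      _ ≤ n := by omega
  have hBh : h * B * 2 ≤ n := by
    have := Nat.div_mul_le_self n (2 * h)
    calc h * B * 2 = B * (2 * h) := by ring
      _ ≤ n := this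
  obtain ⟨K, k, s, hKk, hkK, hsum, hs1, hsB, hs2, hs3, hKb⟩ :=
    exists_sizes_aux (B := B) (p := p) (n := n) (Θ := Θ) (q := q) hBq hp
      (by rw [hΘ]; nlinarith) hq1 (by rw [hΘ]; nlinarith) hnpL
  -- real bounds on K
  have hloggam : 0 < -Real.log (1 / 2 + 2 / (p : ℝ)) := by
    have hlog2 : 0 < Real.log 2 := Real.log_pos (by norm_num)
    by_contra hcon
    push Not at hcon
    nlinarith
  have hn0 : (0 : ℝ) < n := by linarith
  have hKb1 : (n : ℝ) / B ≤ 4 * h := by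
    have hBpos : 0 < B := by omega
    rw [div_le_iff₀ (by exact_mod_cast hBpos)]
    have h1 : n < (B + 1) * (2 * h) := (Nat.div_lt_iff_lt_mul hh0).1 (Nat.lt_succ_self _)
    have h2 : n ≤ 4 * h * B := by
      have h3 : (B + 1) * (2 * h) = 2 * h * B + 2 * h := by ring
      have h4 : 2 * h ≤ 2 * h * B := Nat.le_mul_of_pos_right _ hBpos
      have h5 : 4 * h * B = 2 * h * B + 2 * h * B := by ring
      omega
    exact_mod_cast h2
  have hKb2 : Real.log n / (-Real.log (1 / 2 + 2 / (p : ℝ))) ≤ (1 + ε / 4) * lam := by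
    rw [div_le_iff₀ hloggam]
    have hlog2 : 0 < Real.log 2 := Real.log_pos (by norm_num)
    have hlogn : Real.log n = lam * Real.log 2 := by
      rw [hlamdef, Real.logb]
      field_simp
    rw [hlogn]
    have hlam0 : 0 ≤ lam := by nlinarith [sq_nonneg (p : ℝ)]
    calc lam * Real.log 2 ≤ lam * ((1 + ε / 4) * (-Real.log (1 / 2 + 2 / p))) :=
          mul_le_mul_of_nonneg_left hplog hlam0
      _ = (1 + ε / 4) * lam * (-Real.log (1 / 2 + 2 / p)) := by ring
  have hhreal : (h : ℝ) ≤ 2 * (lam / p) + 16 * (p : ℝ) ^ 2 := by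
    rw [hh]
    push_cast
    have h1 : (q : ℝ) ≤ (L : ℝ) / p := Nat.cast_div_le
    have h2 : (L : ℝ) / p ≤ lam / p := div_le_div_of_nonneg_right hLlam hp0.le
    linarith
  have hkreal : (k : ℝ) ≤ 4 * h + (1 + ε / 4) * lam + 16 * (p : ℝ) ^ 2 := by
    have h1 : (k : ℝ) ≤ (K : ℝ) + 16 * (p : ℝ) ^ 2 := by
      have : k ≤ K + 16 * p ^ 2 := by omega
      exact_mod_cast this
    linarith
  have hlamp : lam / p * 16 ≤ ε / 4 * lam := by
    have hlam0 : 0 ≤ lam := by nlinarith [sq_nonneg (p : ℝ)]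
    calc lam / p * 16 = 16 / p * lam := by ring
      _ ≤ ε / 4 * lam := mul_le_mul_of_nonneg_right hp16 hlam0
  have hp2 : (0 : ℝ) ≤ (p : ℝ) ^ 2 := sq_nonneg _
  have hlam0 : 0 ≤ lam := by linarith
  have hεlam : ε * lam ≤ lam := by
    calc ε * lam ≤ 1 * lam := mul_le_mul_of_nonneg_right hε1 hlam0
      _ = lam := one_mul _
  have hkr : (k : ℝ) + 4 * h + 1 ≤ (1 + ε) * lam := by
    have e1 : (1 + ε / 4) * lam = lam + ε * lam / 4 := by ring
    have e2 : (1 + ε) * lam = lam + ε * lam := by ring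
    have e3 : ε / 4 * lam = ε * lam / 4 := by ring
    rw [e1] at hkreal
    rw [e3] at hlamp
    rw [e2]
    linarith
  have hk2L : k ≤ 2 * L := by
    have h1 : (k : ℝ) ≤ 2 * L := by
      have e1 : (1 + ε / 4) * lam = lam + ε * lam / 4 := by ring
      have e3 : ε / 4 * lam = ε * lam / 4 := by ring
      rw [e1] at hkreal
      rw [e3] at hlamp
      linarith
    exact_mod_cast h1
  set r := ⌊(1 + ε) * lam⌋₊ with hr
  have hrk : k + 4 * h ≤ r := by
    rw [hr]
    apply Nat.le_floor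
    push_cast
    linarith
  have hmono : Arrows (n + r) (starForest k s) := by
    intro R
    refine mono_starForest (K := K) (h := h) (r := r) (n := n) (b := B)
      (θ := 1 / 2 - 3 / (4 * p)) (κ := 1 / (4 * p)) hKk hsum (by simp) hrk ?_ hsB ?_ ?_ ?_ ?_ ?_ ?_ R
    · intro m hm hmk
      have := hs2 m hm hmk
      omega
    · have : 4 * (h * B) = 2 * (h * B * 2) := by ring
      omega
    · intro m hm
      obtain ⟨h1, h2⟩ := hs3 m hm
      have h3 : (k : ℝ) ≤ 1 / (4 * p) * ((∑ i ∈ Finset.Ico m k, (s i + 1) : ℕ) : ℝ) := by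
        rw [one_div, inv_mul_eq_div, le_div_iff₀ (by positivity)]
        have h4 : k * (4 * p) ≤ ∑ i ∈ Finset.Ico m k, (s i + 1) := by
          calc k * (4 * p) ≤ 2 * L * (4 * p) := Nat.mul_le_mul_right _ hk2L
            _ = 8 * p * L := by ring
            _ ≤ _ := h1
        exact_mod_cast h4
      refine ⟨?_, h3⟩
      push_cast at h2 h3 ⊢
      have h5 : (1 / 2 - 3 / (4 * (p : ℝ))) = (1 / 2 - 1 / p) + 1 / (4 * p) := by
        field_simp
        ring
      rw [h5, add_mul]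
      linarith
    · have : 3 / (4 * (p : ℝ)) ≤ 3 / 40 := by
        apply div_le_div_of_nonneg_left (by norm_num) (by norm_num)
        have : (10 : ℝ) ≤ p := by exact_mod_cast hp
        linarith
      linarith
    · positivity
    · rw [div_lt_one (by positivity)]
      have : (10 : ℝ) ≤ p := by exact_mod_cast hp
      linarith
    · have hx : (1 : ℝ) / (4 * p) ≤ 1 / 40 := by
        apply div_le_div_of_nonneg_left (by norm_num) (by norm_num)
        have : (10 : ℝ) ≤ p := by exact_mod_cast hp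
        linarith
      have hx0 : (0 : ℝ) < 1 / (4 * p) := by positivity
      have e : (3 : ℝ) / (4 * p) = 3 * (1 / (4 * p)) := by ring
      rw [e]
      nlinarith
  obtain ⟨G, hG, hGa⟩ := exists_graph_of_starForest hsum hs1 hmono
  have hfin := minRamsey_le hG hGa
  have h1 : (minRamsey n : ℝ) ≤ ((n + r : ℕ) : ℝ) := by exact_mod_cast hfin
  have h2 : (r : ℝ) ≤ (1 + ε) * lam := Nat.floor_le (by positivity)
  push_cast at h1
  linarith

end Pool.Agent.J6H57.MinRamsey
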